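import Pool.Agent.Y149.PK.Link

/-! Closed formulas for the dimensions and the constants. -/

set_option autoImplicit false

open Finset

namespace Pool.Agent.Y149.PK

/-- the Betti numbers of an elliptic curve -/
def bE (c : ℕ) : ℕ := Nat.choose 2 c

/-- the number of algebraic classes of an elliptic curve -/
def tE (c : ℕ) : ℝ := if c = 0 ∨ c = 2 then 1 else 0

/-- half of the dimension of the rest -/
def vE (c : ℕ) : ℝ := if c = 1 then 1 else 0

theorem bE_split (c : ℕ) : (bE c : ℝ) = tE c + 2 * vE c := by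
  unfold bE tE vE
  match c with
  | 0 => norm_num
  | 1 => norm_num
  | 2 => norm_num
  | (k + 3) =>
    rw [Nat.choose_eq_zero_of_lt (by omega), if_neg (by omega), if_neg (by omega)]
    norm_num

theorem sum_choose (N0 : ℕ → ℕ) (k n : ℕ) : dimH N0 k n =
    PowerSeries.coeff n (PowerSeries.mk N0 *
      ((((1 + Polynomial.X) ^ (2 * k) : Polynomial ℕ)) : PowerSeries ℕ)) := by
  rw [PowerSeries.coeff_mul, Finset.Nat.sum_antidiagonal_eq_sum_range_succ_mk]
  unfold dimH
  refine Finset.sum_congr rfl fun a _ => ?_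
  rw [PowerSeries.coeff_mk, Polynomial.coeff_coe, Polynomial.coeff_one_add_X_pow]
  simp [mul_comm]

theorem cbn_eq (N0 : ℕ → ℕ) (k n : ℕ) : dimY N0 bE k n = dimH N0 k n := by
  induction k generalizing n with
  | zero =>
    rw [sum_choose, dimY]
    simp
  | succ k ih =>
    have e : ((((1 + Polynomial.X) ^ (2 * (k + 1)) : Polynomial ℕ)) : PowerSeries ℕ) =
        ((((1 + Polynomial.X) ^ (2 * k) : Polynomial ℕ)) : PowerSeries ℕ) *
        ((((1 + Polynomial.X) ^ 2 : Polynomial ℕ)) : PowerSeries ℕ) := by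
      rw [← Polynomial.coe_mul, ← pow_add]
      congr 2
    rw [sum_choose, e, ← mul_assoc, PowerSeries.coeff_mul, dimY]
    refine Finset.sum_congr rfl fun x _ => ?_
    rw [ih, sum_choose, Polynomial.coeff_coe, Polynomial.coeff_one_add_X_pow]
    simp [bE]

theorem antidiag_tE (f : ℕ → ℝ) (n : ℕ) : ∑ x ∈ HasAntidiagonal.antidiagonal n, f x.1 * tE x.2 =
    f n + if 2 ≤ n then f (n - 2) else 0 := by
  match n with
  | 0 => simp [tE]
  | 1 =>
    rw [Finset.Nat.sum_antidiagonal_succ']
    simp [tE]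
  | (n + 2) =>
    rw [Finset.Nat.sum_antidiagonal_succ', Finset.Nat.sum_antidiagonal_succ',
      if_pos (by omega)]
    have h1 : ∑ x ∈ HasAntidiagonal.antidiagonal n, f x.1 * tE (x.2 + 1 + 1) = f n := by
      rw [Finset.sum_eq_single (n, 0)]
      · simp [tE]
      · intro x hx hne
        have h2 : tE (x.2 + 1 + 1) = 0 := by
          unfold tE
          rw [if_neg]
          intro h3
          have h4 := mem_antidiagonal.1 hx
          apply hne
          ext
          · simp; omega
          · simp; omega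
        rw [h2, mul_zero]
      · intro h
        exact absurd (HasAntidiagonal.mem_antidiagonal.2 (by simp)) h
    rw [h1]
    simp [tE]

theorem evenPart_succ (z : ℕ → ℝ) (k n : ℕ) : evenPart z (k + 1) n =
    evenPart z k n + if 2 ≤ n then evenPart z k (n - 2) else 0 := by
  unfold evenPart
  rw [Finset.sum_range_succ', Finset.sum_range_succ' (fun a => ((k.choose a : ℕ) : ℝ) * _)]
  simp only [Nat.choose_zero_right, mul_zero, Nat.sub_zero]
  have h1 : ∑ a ∈ range (n / 2), ((k + 1).choose (a + 1) : ℝ) * z (n - 2 * (a + 1)) =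
      ∑ a ∈ range (n / 2), (k.choose (a + 1) : ℝ) * z (n - 2 * (a + 1)) +
      ∑ a ∈ range (n / 2), (k.choose a : ℝ) * z (n - 2 * (a + 1)) := by
    rw [← Finset.sum_add_distrib]
    refine Finset.sum_congr rfl fun a _ => ?_
    rw [Nat.choose_succ_succ']
    push_cast
    ring
  rw [h1]
  split_ifs with h2
  · have h3 : (n - 2) / 2 + 1 = n / 2 := by omega
    rw [h3]
    have h4 : ∑ a ∈ range (n / 2), (k.choose a : ℝ) * z (n - 2 - 2 * a) =
        ∑ a ∈ range (n / 2), (k.choose a : ℝ) * z (n - 2 * (a + 1)) :=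
      Finset.sum_congr rfl fun a _ => by
        congr 2
        omega
    rw [h4]
    ring
  · have h3 : n / 2 = 0 := by omega
    rw [h3]
    simp

theorem bnd_even (z : ℕ → ℝ) (k n : ℕ) : bnd z tE k n = evenPart z k n := by
  induction k generalizing n with
  | zero =>
    unfold bnd evenPart
    rw [Finset.sum_range_succ']
    have : ∑ a ∈ range (n / 2), ((Nat.choose 0 (a + 1) : ℕ) : ℝ) * z (n - 2 * (a + 1)) = 0 :=
      Finset.sum_eq_zero fun a _ => by simp
    rw [this]
    simp
  | succ k ih =>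
    rw [bnd, evenPart_succ]
    simp only [ih]
    exact antidiag_tE _ n

theorem QQ_const {ι : Type} (z t : ℕ → ℝ) (l : List ι) (n : ℕ) :
    QQ z (fun _ => t) l n = bnd z t l.length n := by
  induction l generalizing n with
  | nil => rfl
  | cons e l ih =>
    rw [QQ, List.length_cons, bnd]
    exact Finset.sum_congr rfl fun x _ => by rw [ih]

theorem KK_half (N0 N t v : ℕ → ℝ) (s : ℝ) (h : ∀ c, N c = t c + 2 * v c) (k n : ℕ) :
    KK N0 N t v s k n = s / 2 * (bnd N0 N k n - bnd N0 t k n) := by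
  induction k generalizing n with
  | zero => simp [KK, bnd]
  | succ k ih =>
    rw [KK, bnd, bnd, ← Finset.sum_sub_distrib, Finset.mul_sum]
    refine Finset.sum_congr rfl fun x _ => ?_
    rw [ih, h]
    ring

theorem KK_full (N0 N : ℕ → ℝ) (s : ℝ) (k n : ℕ) :
    KK N0 N N N s k n = k * s * bnd N0 N k n := by
  induction k generalizing n with
  | zero => simp [KK]
  | succ k ih =>
    rw [KK, bnd, Finset.mul_sum]
    refine Finset.sum_congr rfl fun x _ => ?_
    rw [ih]
    push_cast
    ring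

theorem evenPart_cast (z : ℕ → ℕ) (k n : ℕ) :
    evenPart (fun a => (z a : ℝ)) k n = ((evenPart z k n : ℕ) : ℝ) := by
  unfold evenPart
  push_cast
  rfl

theorem evenPart_cast_int (z : ℕ → ℤ) (k n : ℕ) :
    evenPart (fun a => (z a : ℝ)) k n = ((evenPart z k n : ℤ) : ℝ) := by
  unfold evenPart
  push_cast
  rfl

/-- the constant for elliptic curves -/
theorem KK_ell (N0 : ℕ → ℕ) (M k n : ℕ) :
    KK (fun a => (N0 a : ℝ)) (fun c => (bE c : ℝ)) tE vE (Real.sqrt (2 * M)) k n ^ 2 =
      M / 2 * ((dimH N0 k n : ℝ) - (evenPart N0 k n : ℕ)) ^ 2 := by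
  rw [KK_half _ _ _ _ _ bE_split, bnd_cast, cbn_eq, bnd_even, evenPart_cast, mul_pow, div_pow,
    Real.sq_sqrt (by positivity)]
  ring

end Pool.Agent.Y149.PK
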