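import Pool.Agent.Y149.LN.Fam

/-! Products of several members of a family of almost orthogonal functions on the primes: the mean
square over all tuples of length `k`. -/

set_option autoImplicit false

namespace Pool.Agent.Y149.PK

open Finset Filter Topology
open Pool.Agent.W540.BE (EP NormSys EP_const_mul EP_add EP_sum)
open Pool.Agent.H341R2 (E lam lam_tendsto)
open Pool.Agent.Y149.LN (normSysP E_eq_EP bessel_D)
open Pool.Agent.Y149.CR (EP_mono' abs_EP_le)

/-! ### Sums over the primes -/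

theorem E_add' {ε : ℝ} (hε : 0 < ε) {φ ψ : Nat.Primes → ℝ} {B B' : ℝ} (hφ : ∀ p, |φ p| ≤ B)
    (hψ : ∀ p, |ψ p| ≤ B') : E ε (fun p => φ p + ψ p) = E ε φ + E ε ψ :=
  EP_add normSysP hε hφ hψ

theorem E_smul (ε c : ℝ) (φ : Nat.Primes → ℝ) : E ε (fun p => c * φ p) = c * E ε φ :=
  EP_const_mul c φ

theorem E_fsum {ε : ℝ} (hε : 0 < ε) {κ : Type*} (K : Finset κ) (φ : κ → Nat.Primes → ℝ)
    (B : κ → ℝ) (hφ : ∀ k ∈ K, ∀ p, |φ k p| ≤ B k) :
    E ε (fun p => ∑ k ∈ K, φ k p) = ∑ k ∈ K, E ε (φ k) :=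
  EP_sum normSysP hε K φ B hφ

theorem E_mono {ε : ℝ} (hε : 0 < ε) {φ ψ : Nat.Primes → ℝ} {B B' : ℝ} (hφ : ∀ p, |φ p| ≤ B)
    (hψ : ∀ p, |ψ p| ≤ B') (h : ∀ p, φ p ≤ ψ p) : E ε φ ≤ E ε ψ :=
  EP_mono' normSysP hε hφ hψ h

theorem abs_E_le {ε : ℝ} (hε : 0 < ε) {φ : Nat.Primes → ℝ} {B : ℝ} (hφ : ∀ p, |φ p| ≤ B) :
    |E ε φ| ≤ B * lam ε := by
  have h := abs_EP_le normSysP hε hφ
  have e : EP (fun p : Nat.Primes => (p : ℕ)) ε (fun _ => 1) = lam ε := by
    unfold EP lam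
    exact tsum_congr fun p => one_mul _
  rw [e] at h
  exact h

theorem E_one (ε : ℝ) : E ε (fun _ => 1) = lam ε := by
  unfold E lam
  exact tsum_congr fun p => one_mul _

theorem lam_pos : ∀ᶠ ε : ℝ in 𝓝[>] 0, 0 < lam ε := lam_tendsto.eventually_gt_atTop 0

section
variable {ι : Type*}

/-- A family of functions `T e c` on the primes (normalised traces) with the means `τ e c`: the
differences are orthogonal on one side, if the members are not related, and every member is related to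
at most `M` members. -/
structure Fam (R : ι → ι → Prop) (M : ℕ) (T : ι → ℕ → Nat.Primes → ℝ) (τ : ι → ℕ → ℝ)
    (N t v : ℕ → ℝ) : Prop where
  bd : ∀ e c p, |T e c p| ≤ N c
  tb : ∀ e c, |τ e c| ≤ t c
  v0 : ∀ c, 0 ≤ v c
  diag : ∀ e c, ∃ C : ℝ, ∀ᶠ ε : ℝ in 𝓝[>] 0,
    E ε (fun p => (T e c p - τ e c) ^ 2) ≤ v c ^ 2 * lam ε + C
  cross : ∀ e e' c, ¬ R e e' → ∃ C : ℝ, ∀ᶠ ε : ℝ in 𝓝[>] 0,
    E ε (fun p => (T e c p - τ e c) * (T e' c p - τ e' c)) ≤ C
  symm : ∀ e e', R e e' → R e' e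
  mult : ∀ (e : ι) (S : Finset ι), (∀ e' ∈ S, R e e') → S.card ≤ M

variable {R : ι → ι → Prop} {M : ℕ} {T : ι → ℕ → Nat.Primes → ℝ} {τ : ι → ℕ → ℝ} {N t v : ℕ → ℝ}

/-- the part of `T e c` without the mean -/
def uf (T : ι → ℕ → Nat.Primes → ℝ) (τ : ι → ℕ → ℝ) (e : ι) (c : ℕ) (p : Nat.Primes) : ℝ :=
  T e c p - τ e c

theorem Fam.N0 (h : Fam R M T τ N t v) [Nonempty ι] (c : ℕ) : 0 ≤ N c :=
  (abs_nonneg _).trans (h.bd (Classical.arbitrary ι) c ⟨2, Nat.prime_two⟩)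

theorem Fam.ub (h : Fam R M T τ N t v) (e : ι) (c : ℕ) (p : Nat.Primes) :
    |uf T τ e c p| ≤ N c + t c :=
  (abs_sub _ _).trans (add_le_add (h.bd e c p) (h.tb e c))

/-- the mean of the square of a nonnegative combination -/
theorem Fam.var_le (h : Fam R M T τ N t v) (c : ℕ) (J : Finset ι) (B : ℝ) :
    ∃ C : ℝ, ∀ᶠ ε : ℝ in 𝓝[>] 0, ∀ w : ι → ℝ, (∀ e ∈ J, 0 ≤ w e ∧ w e ≤ B) →
      E ε (fun p => ‖∑ e ∈ J, (w e : ℂ) * (uf T τ e c p : ℂ)‖ ^ 2) ≤
        (M * v c ^ 2) * ((∑ e ∈ J, w e ^ 2) * lam ε) + C := by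
  classical
  have hex : ∀ e e' : ι, ∃ C : ℝ, 0 ≤ C ∧ ∀ᶠ ε : ℝ in 𝓝[>] 0,
      ∀ x y : ℝ, 0 ≤ x → 0 ≤ y → x ≤ B → y ≤ B →
      x * y * E ε (fun p => uf T τ e c p * uf T τ e' c p) ≤
        (if R e e' then (x ^ 2 + y ^ 2) / 2 * (v c ^ 2 * lam ε) else 0) + B ^ 2 * C := by
    intro e e'
    by_cases hR : R e e'
    · obtain ⟨C, hC⟩ := h.diag e c
      obtain ⟨C', hC'⟩ := h.diag e' c
      refine ⟨|C| + |C'|, by positivity, ?_⟩
      filter_upwards [hC, hC', self_mem_nhdsWithin] with ε h1 h2 h3 x y hx hy hxB hyB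
      have hε : (0 : ℝ) < ε := h3
      rw [if_pos hR]
      have hb : ∀ (f : ι) p, |uf T τ f c p ^ 2| ≤ (N c + t c) ^ 2 := fun f p => by
        rw [abs_pow]
        exact pow_le_pow_left₀ (abs_nonneg _) (h.ub f c p) 2
      have hb2 : ∀ (f : ι) (z : ℝ) p, |z * uf T τ f c p ^ 2| ≤ |z| * (N c + t c) ^ 2 :=
        fun f z p => by
        rw [abs_mul]
        exact mul_le_mul_of_nonneg_left (hb f p) (abs_nonneg _)
      have h4 : x * y * E ε (fun p => uf T τ e c p * uf T τ e' c p) ≤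
          x ^ 2 / 2 * E ε (fun p => uf T τ e c p ^ 2) +
          y ^ 2 / 2 * E ε (fun p => uf T τ e' c p ^ 2) := by
        rw [← E_smul, ← E_smul, ← E_smul, ← E_add' hε (hb2 e _) (hb2 e' _)]
        refine E_mono hε (B := |x * y| * ((N c + t c) * (N c + t c))) (fun p => ?_)
          (fun p => (abs_add_le _ _).trans (add_le_add (hb2 e _ p) (hb2 e' _ p))) (fun p => ?_)
        · rw [abs_mul (x * y), abs_mul (uf T τ e c p)]
          exact mul_le_mul_of_nonneg_left (mul_le_mul (h.ub e c p) (h.ub e' c p) (abs_nonneg _)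
            ((abs_nonneg _).trans (h.ub e c p))) (abs_nonneg _)
        · nlinarith [sq_nonneg (x * uf T τ e c p - y * uf T τ e' c p)]
      have h5 : x ^ 2 ≤ B ^ 2 := pow_le_pow_left₀ hx hxB 2
      have h6 : y ^ 2 ≤ B ^ 2 := pow_le_pow_left₀ hy hyB 2
      have h7 : x ^ 2 / 2 * E ε (fun p => uf T τ e c p ^ 2) ≤
          x ^ 2 / 2 * (v c ^ 2 * lam ε) + B ^ 2 * |C| := by
        have := mul_le_mul_of_nonneg_left h1 (by positivity : 0 ≤ x ^ 2 / 2)
        refine this.trans ?_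
        rw [mul_add]
        refine add_le_add_right ?_ _
        have h8 : x ^ 2 / 2 * C ≤ x ^ 2 / 2 * |C| :=
          mul_le_mul_of_nonneg_left (le_abs_self C) (by positivity)
        have h9 : x ^ 2 / 2 * |C| ≤ B ^ 2 * |C| :=
          mul_le_mul_of_nonneg_right (by nlinarith [sq_nonneg x]) (abs_nonneg _)
        linarith
      have h7' : y ^ 2 / 2 * E ε (fun p => uf T τ e' c p ^ 2) ≤
          y ^ 2 / 2 * (v c ^ 2 * lam ε) + B ^ 2 * |C'| := by
        have := mul_le_mul_of_nonneg_left h2 (by positivity : 0 ≤ y ^ 2 / 2)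
        refine this.trans ?_
        rw [mul_add]
        refine add_le_add_right ?_ _
        have h8 : y ^ 2 / 2 * C' ≤ y ^ 2 / 2 * |C'| :=
          mul_le_mul_of_nonneg_left (le_abs_self C') (by positivity)
        have h9 : y ^ 2 / 2 * |C'| ≤ B ^ 2 * |C'| :=
          mul_le_mul_of_nonneg_right (by nlinarith [sq_nonneg y]) (abs_nonneg _)
        linarith
      have h8 : (x ^ 2 + y ^ 2) / 2 * (v c ^ 2 * lam ε) =
          x ^ 2 / 2 * (v c ^ 2 * lam ε) + y ^ 2 / 2 * (v c ^ 2 * lam ε) := by ring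
      rw [h8, mul_add]
      linarith
    · obtain ⟨C, hC⟩ := h.cross e e' c hR
      refine ⟨|C|, abs_nonneg _, ?_⟩
      filter_upwards [hC] with ε h1 x y hx hy hxB hyB
      rw [if_neg hR, zero_add]
      have h2 : x * y * E ε (fun p => uf T τ e c p * uf T τ e' c p) ≤ x * y * |C| :=
        mul_le_mul_of_nonneg_left (h1.trans (le_abs_self C)) (mul_nonneg hx hy)
      refine h2.trans (mul_le_mul_of_nonneg_right ?_ (abs_nonneg _))
      rw [sq]
      exact mul_le_mul hxB hyB hy (hx.trans hxB)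
  choose C hC0 hC using hex
  refine ⟨∑ e ∈ J, ∑ e' ∈ J, B ^ 2 * C e e', ?_⟩
  have hev : ∀ᶠ ε : ℝ in 𝓝[>] 0, ∀ e ∈ J, ∀ e' ∈ J,
      ∀ x y : ℝ, 0 ≤ x → 0 ≤ y → x ≤ B → y ≤ B →
      x * y * E ε (fun p => uf T τ e c p * uf T τ e' c p) ≤
        (if R e e' then (x ^ 2 + y ^ 2) / 2 * (v c ^ 2 * lam ε) else 0) + B ^ 2 * C e e' := by
    rw [Filter.eventually_all_finset]
    intro e _
    rw [Filter.eventually_all_finset]
    exact fun e' _ => hC e e'
  filter_upwards [hev, lam_pos, self_mem_nhdsWithin] with ε h1 hlam h2 w hw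
  have hε : (0 : ℝ) < ε := h2
  have e1 : E ε (fun p => ‖∑ e ∈ J, (w e : ℂ) * (uf T τ e c p : ℂ)‖ ^ 2) =
      ∑ e ∈ J, ∑ e' ∈ J, (w e * w e') * E ε (fun p => uf T τ e c p * uf T τ e' c p) := by
    have e2 : (fun p : Nat.Primes => ‖∑ e ∈ J, (w e : ℂ) * (uf T τ e c p : ℂ)‖ ^ 2) = fun p =>
        ∑ e ∈ J, ∑ e' ∈ J, (w e * w e') * (uf T τ e c p * uf T τ e' c p) := by
      funext p
      have e3 : (∑ e ∈ J, (w e : ℂ) * (uf T τ e c p : ℂ)) =
          ((∑ e ∈ J, w e * uf T τ e c p : ℝ) : ℂ) := by push_cast; rfl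
      rw [e3, Complex.norm_real, Real.norm_eq_abs, sq_abs, sq, Finset.sum_mul_sum]
      refine Finset.sum_congr rfl fun e _ => Finset.sum_congr rfl fun e' _ => ?_
      ring
    rw [e2, E_eq_EP, Pool.Agent.Y149.CR.EP_sum2 normSysP hε J J (fun e e' => w e * w e')
      (fun e e' p => uf T τ e c p * uf T τ e' c p) (fun _ _ => (N c + t c) * (N c + t c))
      (fun e _ e' _ p => by
        rw [abs_mul]
        exact mul_le_mul (h.ub e c p) (h.ub e' c p) (abs_nonneg _)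
            ((abs_nonneg _).trans (h.ub e c p)))]
    rfl
  rw [e1]
  have h3 : ∑ e ∈ J, ∑ e' ∈ J, (w e * w e') * E ε (fun p => uf T τ e c p * uf T τ e' c p) ≤
      ∑ e ∈ J, ∑ e' ∈ J, ((if R e e' then (w e ^ 2 + w e' ^ 2) / 2 * (v c ^ 2 * lam ε) else 0) +
        B ^ 2 * C e e') := by
    refine Finset.sum_le_sum fun e he => Finset.sum_le_sum fun e' he' => ?_
    exact h1 e he e' he' _ _ (hw e he).1 (hw e' he').1 (hw e he).2 (hw e' he').2
  refine h3.trans ?_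
  have h4 : ∑ e ∈ J, ∑ e' ∈ J, ((if R e e' then (w e ^ 2 + w e' ^ 2) / 2 * (v c ^ 2 * lam ε)
      else 0) + B ^ 2 * C e e') =
      (∑ e ∈ J, ∑ e' ∈ J, if R e e' then (w e ^ 2 + w e' ^ 2) / 2 * (v c ^ 2 * lam ε) else 0) +
      ∑ e ∈ J, ∑ e' ∈ J, B ^ 2 * C e e' := by
    rw [← Finset.sum_add_distrib]
    exact Finset.sum_congr rfl fun e _ => Finset.sum_add_distrib
  rw [h4]
  refine add_le_add_left ?_ _
  set L : ℝ := v c ^ 2 * lam ε with hL
  have hL0 : 0 ≤ L := by positivity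
  have h5 : (∑ e ∈ J, ∑ e' ∈ J, if R e e' then (w e ^ 2 + w e' ^ 2) / 2 * L else 0) =
      ∑ e ∈ J, ∑ e' ∈ J, if R e e' then w e ^ 2 * L else 0 := by
    have e5 : (∑ e ∈ J, ∑ e' ∈ J, if R e e' then (w e ^ 2 + w e' ^ 2) / 2 * L else 0) =
        (∑ e ∈ J, ∑ e' ∈ J, if R e e' then w e ^ 2 / 2 * L else 0) +
        ∑ e ∈ J, ∑ e' ∈ J, if R e e' then w e' ^ 2 / 2 * L else 0 := by
      rw [← Finset.sum_add_distrib]
      refine Finset.sum_congr rfl fun e _ => ?_
      rw [← Finset.sum_add_distrib]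
      refine Finset.sum_congr rfl fun e' _ => ?_
      split_ifs <;> ring
    have e6 : (∑ e ∈ J, ∑ e' ∈ J, if R e e' then w e' ^ 2 / 2 * L else 0) =
        ∑ e ∈ J, ∑ e' ∈ J, if R e e' then w e ^ 2 / 2 * L else 0 := by
      rw [Finset.sum_comm]
      refine Finset.sum_congr rfl fun e _ => Finset.sum_congr rfl fun e' _ => ?_
      by_cases hR : R e e'
      · rw [if_pos hR, if_pos (h.symm _ _ hR)]
      · rw [if_neg hR, if_neg fun h' => hR (h.symm _ _ h')]
    rw [e5, e6, ← Finset.sum_add_distrib]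
    refine Finset.sum_congr rfl fun e _ => ?_
    rw [← Finset.sum_add_distrib]
    refine Finset.sum_congr rfl fun e' _ => ?_
    split_ifs <;> ring
  rw [h5]
  have h6 : ∀ e ∈ J, (∑ e' ∈ J, if R e e' then w e ^ 2 * L else 0) ≤ M * (w e ^ 2 * L) := by
    intro e _
    rw [← Finset.sum_filter, Finset.sum_const, nsmul_eq_mul]
    refine mul_le_mul_of_nonneg_right ?_ (by positivity)
    exact_mod_cast h.mult e (J.filter fun e' => R e e') fun e' he' => (Finset.mem_filter.1 he').2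
  refine (Finset.sum_le_sum h6).trans (le_of_eq ?_)
  rw [← Finset.mul_sum, ← Finset.sum_mul, hL]
  ring

/-- **Bessel's inequality** with both signs. -/
theorem Fam.bes (h : Fam R M T τ N t v) (c : ℕ) (J : Finset ι) (Q : Nat.Primes → ℝ) {b : ℝ}
    (hQ : ∀ p, |Q p| ≤ b) {η : ℝ} (hη : 0 < η) :
    ∀ᶠ ε : ℝ in 𝓝[>] 0, ∑ e ∈ J, (E ε (fun p => Q p * uf T τ e c p) / lam ε) ^ 2 ≤
      2 * M * v c ^ 2 * b ^ 2 + η := by
  classical
  have hv := h.v0 c
  have hb0 : 0 ≤ b := (abs_nonneg _).trans (hQ ⟨2, Nat.prime_two⟩)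
  set δ : ℝ := η / (4 * (b ^ 2 + 1)) with hδ
  have hδ0 : 0 < δ := by positivity
  have hlam1 : Tendsto (fun ε : ℝ => EP (fun p : Nat.Primes => (p : ℕ)) ε (fun _ => 1) / lam ε)
      (𝓝[>] 0) (𝓝 1) := by
    refine tendsto_const_nhds.congr' ?_
    filter_upwards [lam_pos] with ε hε
    have e : EP (fun p : Nat.Primes => (p : ℕ)) ε (fun _ => 1) = lam ε := E_one ε
    rw [e, div_self hε.ne']
  have key : ∀ s : ℝ, (s = 1 ∨ s = -1) → ∀ᶠ ε : ℝ in 𝓝[>] 0,
      ∑ e ∈ J, (max (s * (E ε (fun p => Q p * uf T τ e c p) / lam ε)) 0) ^ 2 ≤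
      (M * v c ^ 2 + δ) * b ^ 2 + η / 4 := by
    intro s hs
    have hs1 : s ^ 2 = 1 := by rcases hs with rfl | rfl <;> norm_num
    have hsa : |s| = 1 := by rcases hs with rfl | rfl <;> norm_num
    have h1 := bessel_D normSysP lam_tendsto hlam1 J (fun e p => (uf T τ e c p : ℂ))
      (fun p => s * Q p) (bu := N c + t c) (bT := b) (D := M * v c ^ 2 + δ) (by positivity)
      (fun e p => by rw [Complex.norm_real, Real.norm_eq_abs]; exact h.ub e c p)
      (fun p => by rw [abs_mul, hsa, one_mul]; exact hQ p) (fun B => by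
        obtain ⟨C, hC⟩ := h.var_le c J B
        refine ⟨C, ?_⟩
        filter_upwards [hC, lam_pos] with ε h1 h2 w hw
        refine (h1 w hw).trans ?_
        refine add_le_add_left (mul_le_mul_of_nonneg_right (by linarith) ?_) _
        exact mul_nonneg (Finset.sum_nonneg fun _ _ => sq_nonneg _) h2.le)
      (fun e ε => s * (E ε (fun p => Q p * uf T τ e c p) / lam ε)) (fun e _ => by
        refine tendsto_const_nhds.congr fun ε => ?_
        have e2 : EP (fun p : Nat.Primes => (p : ℕ)) ε (fun p => s * Q p * (uf T τ e c p : ℂ).re) =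
            s * E ε (fun p => Q p * uf T τ e c p) := by
          rw [← E_smul]
          congr 1
          funext p
          rw [Complex.ofReal_re]
          ring
        rw [e2]
        ring) (η := η / 4) (by positivity)
    filter_upwards [h1, lam_pos, self_mem_nhdsWithin] with ε h2 h3 h4
    have hε : (0 : ℝ) < ε := h4
    refine h2.trans ?_
    refine add_le_add_left (mul_le_mul_of_nonneg_left ?_ (by positivity)) _
    rw [div_le_iff₀ h3]
    have h5 : EP (fun p : Nat.Primes => (p : ℕ)) ε (fun p => (s * Q p) ^ 2) ≤ b ^ 2 * lam ε := by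
      refine (le_abs_self _).trans (abs_E_le hε fun p => ?_)
      rw [abs_pow, abs_mul, hsa, one_mul]
      exact pow_le_pow_left₀ (abs_nonneg _) (hQ p) 2
    exact h5
  have hδb : δ * b ^ 2 ≤ η / 4 := by
    rw [hδ, div_mul_eq_mul_div, div_le_iff₀ (by positivity)]
    nlinarith [sq_nonneg b]
  filter_upwards [key 1 (Or.inl rfl), key (-1) (Or.inr rfl)] with ε h1 h2
  have h3 : ∀ e ∈ J, (E ε (fun p => Q p * uf T τ e c p) / lam ε) ^ 2 =
      (max (1 * (E ε (fun p => Q p * uf T τ e c p) / lam ε)) 0) ^ 2 +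
      (max (-1 * (E ε (fun p => Q p * uf T τ e c p) / lam ε)) 0) ^ 2 := by
    intro e _
    rcases le_total 0 (E ε (fun p => Q p * uf T τ e c p) / lam ε) with h0 | h0
    · rw [one_mul, max_eq_left h0, max_eq_right (by linarith)]
      ring
    · rw [one_mul, max_eq_right h0, max_eq_left (by linarith)]
      ring
  rw [Finset.sum_congr rfl h3, Finset.sum_add_distrib]
  linarith

end

end Pool.Agent.Y149.PK
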