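import Pool.Agent.Y149.CM.Defs
import Pool.Agent.Y722.EP.Defs

/-!
# Products of many varieties: definitions

`X`, `Y_1`, `Y_2`, … are smooth projective varieties over `ℚ`, and the files are about the
`L`-functions of the cohomology groups of the products `X × Y_{l_1} × ⋯ × Y_{l_k}` at the edge.  The
point `s = n/2 + 1` is the edge for `H^n`; for `n = 2m` it is the point `s = m + 1` in the conjecture
of Tate.
-/

set_option autoImplicit false

namespace Pool.Agent.Y149.PK

open Filter Topology Polynomial ComplexConjugate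
open Pool.Agent.Y149.CM (kunneth LFun IsFrobenius)
open Pool.Agent.Y722.EP (points IsModular NotIsogenous)

/-- A projective variety over `ℚ`, given by homogeneous polynomials with integer coefficients, its
dimension, its Betti numbers and, for almost all primes `p`, the multisets `frob p c` of the
eigenvalues of the geometric Frobenius on `H^c`: they have absolute value `p^{c/2}`, count the points
over the finite fields (`Pool.Agent.Y149.CM.IsFrobenius`), are stable under complex conjugation and have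
`betti c` elements.  By the theorem of Deligne every smooth projective variety over `ℚ` gives such
data, and for almost all `p` the multisets are determined by the numbers of points.  The variety need
not be connected over the algebraic closure of `ℚ`; it can be a variety over a number field, regarded
as a variety over `ℚ`. -/
structure Variety where
  vars : ℕ
  eqs : Set (MvPolynomial (Fin vars) ℤ)
  dim : ℕ
  betti : ℕ → ℕ
  frob : Nat.Primes → ℕ → Multiset ℂ
  good : ∀ᶠ p : Nat.Primes in cofinite, IsFrobenius eqs dim p (frob p) ∧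
    (∀ c, (frob p c).map conj = frob p c) ∧ ∀ c, Multiset.card (frob p c) = betti c

/-- The polynomials `B p`, `p` prime, are the Euler factors of an `L`-function of weight `n`.  For
almost all `p`, `B_p(z) = ∏ (1 - α z)`, the product over the multiset `δ p` of the eigenvalues of
Frobenius at `p`.  At the other primes `B p` is an arbitrary polynomial, and no factor
`1 / B_p(p^{-s})` has a pole at the edge point `s = n/2 + 1`. -/
def IsEuler (n : ℕ) (δ : Nat.Primes → Multiset ℂ) (B : Nat.Primes → ℂ[X]) : Prop :=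
  (∀ᶠ p : Nat.Primes in cofinite, ∀ z : ℂ, (B p).eval z = ((δ p).map fun α => 1 - α * z).prod) ∧
  ∀ p : Nat.Primes, (B p).eval ((p : ℂ) ^ (-((n : ℂ) / 2 + 1))) ≠ 0

/-- `log |L(n/2 + 1 + ε)| / log(1/ε)` -/
noncomputable def size (n : ℕ) (B : Nat.Primes → ℂ[X]) (ε : ℝ) : ℝ :=
  Real.log ‖LFun B ((n : ℂ) / 2 + 1 + ε)‖ / Real.log (1 / ε)

/-- `r = ord_{s = n/2 + 1} L(s)`: the function `(s - n/2 - 1)^{-r} L(s)` has a finite nonzero limit
as real `s → (n/2 + 1)+`. -/
def HasOrder (n : ℕ) (B : Nat.Primes → ℂ[X]) (r : ℤ) : Prop :=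
  ∃ a : ℂ, a ≠ 0 ∧
    Tendsto (fun ε : ℝ => (ε : ℂ) ^ (-r) * LFun B ((n : ℂ) / 2 + 1 + ε)) (𝓝[>] 0) (𝓝 a)

/-- The eigenvalues of Frobenius on the cohomology of `X × Y_{l_1} × ⋯ × Y_{l_k}`, `β` those on the
cohomology of `X` and `γ e` those on the cohomology of `Y_e` (formula of Künneth). -/
noncomputable def frobProd {ι : Type} (β : ℕ → Multiset ℂ) (γ : ι → ℕ → Multiset ℂ) :
    List ι → ℕ → Multiset ℂ
  | [] => β
  | e :: l => kunneth (frobProd β γ l) (γ e)

/-- The eigenvalues of Frobenius at `p` on `H^0`, `H^1`, `H^2` of the elliptic curve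
`y² = x³ + a x + b`: `1`, the two roots of `T² - a_p T + p`, `a_p = p + 1 - #E(𝔽_p)`, and `p`. -/
noncomputable def frobE (a b : ℤ) (p : ℕ) : ℕ → Multiset ℂ
  | 0 => {1}
  | 1 => (X ^ 2 - C (((p : ℤ) + 1 - points (ZMod p) a b : ℤ) : ℂ) * X + C (p : ℂ)).roots
  | 2 => {(p : ℂ)}
  | _ => 0

/-- The eigenvalues for a point: `H^0 = ℚ`, with trivial Frobenius. -/
def frobPt : ℕ → Multiset ℂ
  | 0 => {1}
  | _ => 0

/-- The elliptic curves `E_i : y² = x³ + a_i x + b_i`, `i ∈ ι`, are modular, and every isogeny class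
has at most `M` members (for `M = 1` no two of the curves are isogenous; by a theorem of Kenku `M = 8`
is possible for the family of all elliptic curves over `ℚ` up to isomorphism). -/
structure IsEllipticFamily {ι : Type} (M : ℕ) (a b : ι → ℤ) : Prop where
  disc : ∀ i, 4 * a i ^ 3 + 27 * b i ^ 2 ≠ 0
  modular : ∀ i, IsModular (a i) (b i)
  mult : ∀ (i : ι) (S : Finset ι), (∀ j ∈ S, ¬ NotIsogenous (a i) (b i) (a j) (b j)) → S.card ≤ M

/-- All `k`-tuples of elements of `J`. -/
def tuples {ι : Type} (J : Finset ι) (k : ℕ) : Finset (Fin k → ι) := Fintype.piFinset fun _ => J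

/-- The eigenvalues on the tensor product. -/
def tens (s t : Multiset ℂ) : Multiset ℂ := (s ×ˢ t).map fun z => z.1 * z.2

/-- `∑_a C(k, a) z_{n - 2a}`.  If `z_c` is a number attached to `H^c(X)` (a dimension, the order of a
pole), then this is the number for the part `H^*(X) ⊗ (H^0 ⊕ H^2)^{⊗ k}` of the cohomology of degree
`n` of the product of `X` with `k` curves. -/
def evenPart {A : Type} [Semiring A] (z : ℕ → A) (k n : ℕ) : A :=
  ∑ a ∈ Finset.range (n / 2 + 1), (k.choose a : A) * z (n - 2 * a)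

/-- `∑_a C(2k, n - a) N_a`: the dimension of `H^n(X × E_1 × ⋯ × E_k)`, `E_i` elliptic curves and
`N_a` the Betti numbers of `X`. -/
def dimH (N : ℕ → ℕ) (k n : ℕ) : ℕ :=
  ∑ a ∈ Finset.range (n + 1), (2 * k).choose (n - a) * N a

/-- The coefficient of `T^n` in `N₀(T) N(T)^k`, `N₀(T) = ∑ N₀_c T^c`, `N(T) = ∑ N_c T^c`: the
dimension of `H^n(X × Y_1 × ⋯ × Y_k)`, `N₀_c` the Betti numbers of `X` and `N_c` those of the `Y_i`. -/
def dimY (N₀ N : ℕ → ℕ) : ℕ → ℕ → ℕ
  | 0, n => N₀ n
  | k + 1, n => ∑ x ∈ Finset.HasAntidiagonal.antidiagonal n, dimY N₀ N k x.1 * N x.2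

/-- The coefficient of `T^n` in `z(T) τ_{l_1}(T) ⋯ τ_{l_k}(T)`, `z(T) = ∑ z_c T^c`,
`τ_e(T) = ∑ τ_{e,c} T^c`: the rank of the group of the products of cycles on `X` and on the `Y_{l_i}`,
if `z_c` and `τ_{e,c}` are the ranks for `X` and `Y_e` in degree `c`. -/
def QQ {ι A : Type} [CommSemiring A] (z : ℕ → A) (τ : ι → ℕ → A) : List ι → ℕ → A
  | [], n => z n
  | e :: l, n => ∑ x ∈ Finset.HasAntidiagonal.antidiagonal n, QQ z τ l x.1 * τ e x.2

section
variable {ι : Type}

/-- `B l n` are the Euler factors of `L(H^n(X × E_{l_1} × ⋯ × E_{l_k}), s)`, for every list `l` of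
indices and every `n`, where `E_i` is the elliptic curve `y² = x³ + a_i x + b_i`.  For the empty list
these are the Euler factors of `L(H^n(X), s)`. -/
def IsEllSystem (X : Variety) (a b : ι → ℤ) (B : List ι → ℕ → Nat.Primes → ℂ[X]) : Prop :=
  ∀ (l : List ι) (n : ℕ),
    IsEuler n (fun p => frobProd (X.frob p) (fun i => frobE (a i) (b i) p) l n) (B l n)

/-- `B l n` are the Euler factors of `L(H^n(X × Y_{l_1} × ⋯ × Y_{l_k}), s)`, for every list `l` of
indices and every `n`. -/
def IsSystem (X : Variety) (Y : ι → Variety) (B : List ι → ℕ → Nat.Primes → ℂ[X]) : Prop :=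
  ∀ (l : List ι) (n : ℕ),
    IsEuler n (fun p => frobProd (X.frob p) (fun e => (Y e).frob p) l n) (B l n)

/-- The varieties `Y e`, `e ∈ ι`, have `c`-th Betti numbers at most `N c`, and the orders are known
for one and for two members: `L(H^c(Y_e), s)` has order `-τ_{e,c}` at the edge `s = c/2 + 1`, and
there is a symmetric relation `R`, every `e` being related to at most `M` indices, such that for `e`
and `e'` not related `L(H^c(Y_e) ⊗ H^c(Y_{e'}), s)` has order `-τ_{e,c} τ_{e',c}` at `s = c + 1`
(the only algebraic classes of this group come from the two factors). -/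
structure IsPairFamily (Y : ι → Variety) (N : ℕ → ℕ) (M : ℕ) (τ : ι → ℕ → ℤ) : Prop where
  betti_le : ∀ e c, (Y e).betti c ≤ N c
  bounded : ∃ d, ∀ c, d < c → N c = 0
  single : ∀ e c, ∃ B : Nat.Primes → ℂ[X],
    IsEuler c (fun p => (Y e).frob p c) B ∧ HasOrder c B (-(τ e c))
  pair : ∃ R : ι → ι → Prop, (∀ e e', R e e' → R e' e) ∧
    (∀ (e : ι) (S : Finset ι), (∀ e' ∈ S, R e e') → S.card ≤ M) ∧
    ∀ e e', ¬ R e e' → ∀ c, ∃ B : Nat.Primes → ℂ[X],
      IsEuler (2 * c) (fun p => tens ((Y e).frob p c) ((Y e').frob p c)) B ∧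
      HasOrder (2 * c) B (-(τ e c * τ e' c))

end

end Pool.Agent.Y149.PK
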