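import Pool.Agent.Y149.PK.Comb

/-! The family of the modular elliptic curves. -/

set_option autoImplicit false

open Finset Filter Topology Complex Polynomial CongruenceSubgroup

namespace Pool.Agent.Y149.PK

open Pool.Agent.H341R2 (E lam lam_tendsto lam_bounded)
open Pool.Agent.Y149.CM (LFun kunneth nt exists_uv)
open Pool.Agent.Y722.EP (IsModular IsNewformOf NotIsogenous points finite_dvd)
open Pool.Agent.Y722.RS (S2 rc tt tt_le cross_le self_le)
open Pool.Agent.TH941 (Hecke)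

theorem notIsogenous_symm {a b a' b' : ℤ} (h : NotIsogenous a b a' b') :
    NotIsogenous a' b' a b := by
  obtain ⟨p, hp, h1, h2, h3⟩ := h
  exact ⟨p, hp, h2, h1, h3.symm⟩

section
variable {N : ℕ} [NeZero N] {f : S2 N} {a b : ℤ}

/-- the trace of the curve is the eigenvalue of the form -/
theorem trace_eq (hf : IsNewformOf f a b) (p : Nat.Primes)
    (h : ¬ ((p : ℕ) : ℤ) ∣ 2 * (4 * a ^ 3 + 27 * b ^ 2)) :
    ((((p : ℕ) : ℤ) + 1 - points (ZMod p) a b : ℤ) : ℝ) = rc f p := by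
  obtain ⟨_, h2⟩ := hf.2 p p.2 h
  unfold rc
  rw [h2]
  simp

theorem frobE_one (hf : IsNewformOf f a b) (p : Nat.Primes)
    (h : ¬ ((p : ℕ) : ℤ) ∣ 2 * (4 * a ^ 3 + 27 * b ^ 2)) : ∃ u v : ℂ,
    frobE a b p 1 = {u, v} ∧ u + v = ((rc f p : ℝ) : ℂ) ∧
    ‖u‖ = Real.sqrt (p : ℕ) ∧ ‖v‖ = Real.sqrt (p : ℕ) := by
  have hp0 : (0 : ℝ) < (p : ℕ) := by exact_mod_cast p.2.pos
  have hs : 0 < Real.sqrt (p : ℕ) := Real.sqrt_pos.2 hp0
  have h1 := tt_le hf.1 p.2
  have h2 : rc f p ^ 2 ≤ 4 * (p : ℕ) := by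
    unfold tt at h1
    rw [abs_div, abs_of_pos hs, div_le_iff₀ hs] at h1
    have h3 := pow_le_pow_left₀ (abs_nonneg _) h1 2
    rw [sq_abs, mul_pow, Real.sq_sqrt hp0.le] at h3
    linarith
  obtain ⟨u, v, g1, g2, g3, g4⟩ := exists_uv (rc f p) p h2
  refine ⟨u, v, ?_, g1, g3, g4⟩
  have e : (X ^ 2 - C (((((p : ℕ) : ℤ) + 1 - points (ZMod p) a b : ℤ)) : ℂ) * X +
      C ((p : ℕ) : ℂ) : ℂ[X]) = (X - C u) * (X - C v) := by
    have h1' : (((((p : ℕ) : ℤ) + 1 - points (ZMod p) a b : ℤ)) : ℂ) = u + v := by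
      rw [g1, ← trace_eq hf p h]
      push_cast
      rfl
    have h2' : (((p : ℕ)) : ℂ) = u * v := by rw [g2]; push_cast; rfl
    rw [h1', h2', C_add, C_mul]
    ring
  unfold frobE
  rw [e, roots_mul (mul_ne_zero (X_sub_C_ne_zero u) (X_sub_C_ne_zero v)), roots_X_sub_C,
    roots_X_sub_C]
  rfl

theorem frobE_VG (hf : IsNewformOf f a b) (p : Nat.Primes)
    (h : ¬ ((p : ℕ) : ℤ) ∣ 2 * (4 * a ^ 3 + 27 * b ^ 2)) : VG bE p (frobE a b p) := by
  have hp0 : (0 : ℝ) < (p : ℕ) := by exact_mod_cast p.2.pos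
  obtain ⟨u, v, h1, h2, h4, h5⟩ := frobE_one hf p h
  refine ⟨fun n => ?_, fun n => ?_⟩
  · match n with
    | 0 => simp [frobE]
    | 1 =>
      rw [h1]
      simp [h4, h5]
    | 2 =>
      simp only [frobE, Multiset.mem_singleton, forall_eq]
      rw [Real.sq_sqrt hp0.le]
      simp
    | (k + 3) => simp [frobE]
  · match n with
    | 0 => simp [frobE, bE]
    | 1 =>
      rw [h1]
      simp [bE]
    | 2 => simp [frobE, bE]
    | (k + 3) => simp [frobE]

/-- the normalised traces -/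
noncomputable def TE (f : S2 N) (c : ℕ) (p : Nat.Primes) : ℝ := tE c + vE c * tt f p

theorem TE_le (hf : Hecke f) (c : ℕ) (p : Nat.Primes) : |TE f c p| ≤ (bE c : ℝ) := by
  have h1 := tt_le hf p.2
  rw [bE_split]
  unfold TE
  refine (abs_add_le _ _).trans ?_
  have h2 : |tE c| = tE c := abs_of_nonneg (by unfold tE; split_ifs <;> norm_num)
  have h3 : |vE c| = vE c := abs_of_nonneg (by unfold vE; split_ifs <;> norm_num)
  have h4 : 0 ≤ vE c := by unfold vE; split_ifs <;> norm_num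
  rw [abs_mul, h2, h3]
  nlinarith

theorem nt_frobE (hf : IsNewformOf f a b) (p : Nat.Primes)
    (h : ¬ ((p : ℕ) : ℤ) ∣ 2 * (4 * a ^ 3 + 27 * b ^ 2)) (c : ℕ) :
    nt p (frobE a b p) c = ((TE f c p : ℝ) : ℂ) := by
  have hp0 : (0 : ℝ) < (p : ℕ) := by exact_mod_cast p.2.pos
  obtain ⟨u, v, h1, h2, h4, h5⟩ := frobE_one hf p h
  unfold nt TE
  match c with
  | 0 => simp [frobE, tE, vE]
  | 1 =>
    rw [h1]
    simp only [Multiset.insert_eq_cons, Multiset.sum_cons, Multiset.sum_singleton, pow_one]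
    rw [h2]
    simp [tE, vE, tt]
  | 2 =>
    simp only [frobE, Multiset.sum_singleton]
    have h7 : ((Real.sqrt (p : ℕ) : ℝ) : ℂ) ^ 2 = (p : ℕ) := by
      rw [← Complex.ofReal_pow, Real.sq_sqrt hp0.le]
      simp
    rw [h7, div_self (by exact_mod_cast p.2.ne_zero)]
    simp [tE, vE]
  | (k + 3) => simp [frobE, tE, vE]

end

section
variable {ι : Type} {a b : ι → ℤ} {M : ℕ} {Nf : ι → ℕ} [∀ i, NeZero (Nf i)] {f : ∀ i, S2 (Nf i)}

theorem E_zero (ε : ℝ) : E ε (fun _ => 0) = 0 := by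
  unfold E
  simp

/-- **The family of modular elliptic curves.** -/
theorem fam_ell (hf : ∀ i, IsNewformOf (f i) (a i) (b i))
    (hM : ∀ (i : ι) (S : Finset ι), (∀ j ∈ S, ¬ NotIsogenous (a i) (b i) (a j) (b j)) →
      S.card ≤ M) :
    Fam (fun i j => ¬ NotIsogenous (a i) (b i) (a j) (b j)) M (fun i => TE (f i))
      (fun _ => tE) (fun c => (bE c : ℝ)) tE vE := by
  refine ⟨fun i c p => TE_le (hf i).1 c p, fun i c => ?_, fun c => ?_, fun i c => ?_,
    fun i j c hij => ?_, fun i j hij h => hij (notIsogenous_symm h), hM⟩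
  · exact le_of_eq (abs_of_nonneg (by unfold tE; split_ifs <;> norm_num))
  · unfold vE; split_ifs <;> norm_num
  · rcases eq_or_ne c 1 with hc | hc
    · subst hc
      obtain ⟨C, hC⟩ := self_le (hf i).1
      obtain ⟨C', hC'⟩ := lam_bounded
      refine ⟨C + C', ?_⟩
      filter_upwards [hC, hC'] with ε h1 h2
      have e1 : (fun p => (TE (f i) 1 p - tE 1) ^ 2) = fun p : Nat.Primes => tt (f i) p * tt (f i) p := by
        funext p
        simp [TE, tE, vE]
        ring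
      have e2 : vE 1 = 1 := by simp [vE]
      rw [e1, e2, one_pow, one_mul]
      have e3 : Real.log (1 / ε) = -Real.log ε := by rw [one_div, Real.log_inv]
      rw [e3] at h1
      have h3 := (abs_le.1 h2).1
      linarith
    · refine ⟨0, Filter.Eventually.of_forall fun ε => ?_⟩
      have e1 : (fun p => (TE (f i) c p - tE c) ^ 2) = fun _ : Nat.Primes => (0 : ℝ) := by
        funext p
        simp [TE, vE, hc]
      have e2 : vE c = 0 := by simp [vE, hc]
      rw [e1, e2, E_zero]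
      simp
  · rcases eq_or_ne c 1 with hc | hc
    · subst hc
      obtain ⟨p, hp, h1, h2, h3⟩ := not_not.1 hij
      obtain ⟨h4, h5⟩ := (hf i).2 p hp h1
      obtain ⟨h6, h7⟩ := (hf j).2 p hp h2
      obtain ⟨C, hC⟩ := cross_le (hf i).1 (hf j).1 hp h4 h6 (by
        unfold rc
        rw [h5, h7]
        intro h
        apply h3
        simp at h
        exact_mod_cast h)
      refine ⟨C, hC.mono fun ε h8 => ?_⟩
      have e1 : (fun p => (TE (f i) 1 p - tE 1) * (TE (f j) 1 p - tE 1)) =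
          fun p : Nat.Primes => tt (f i) p * tt (f j) p := by
        funext p
        simp [TE, tE, vE]
      rw [e1]
      exact h8
    · refine ⟨0, Filter.Eventually.of_forall fun ε => ?_⟩
      have e1 : (fun p => (TE (f i) c p - tE c) * (TE (f j) c p - tE c)) =
          fun _ : Nat.Primes => (0 : ℝ) := by
        funext p
        simp [TE, vE, hc]
      rw [e1, E_zero]

/-- the local data of the curves -/
theorem ell_local (hf : ∀ i, IsNewformOf (f i) (a i) (b i))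
    (hΔ : ∀ i, 4 * a i ^ 3 + 27 * b i ^ 2 ≠ 0) (i : ι) :
    (∀ᶠ p : Nat.Primes in cofinite, VG bE p (frobE (a i) (b i) p)) ∧
    ∀ᶠ p : Nat.Primes in cofinite, ∀ c, nt p (frobE (a i) (b i) p) c = ((TE (f i) c p : ℝ) : ℂ) := by
  have h1 : ∀ᶠ p : Nat.Primes in cofinite,
      ¬ ((p : ℕ) : ℤ) ∣ 2 * (4 * a i ^ 3 + 27 * b i ^ 2) := by
    rw [eventually_cofinite]
    simpa using finite_dvd (mul_ne_zero two_ne_zero (hΔ i))
  exact ⟨h1.mono fun p hp => frobE_VG (hf i) p hp, h1.mono fun p hp c => nt_frobE (hf i) p hp c⟩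

end

end Pool.Agent.Y149.PK
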