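import Pool.Agent.Y149.PK.Defs

/-! The point as a variety over `ℚ`: the projective space of dimension `0`. -/

set_option autoImplicit false

open Filter Topology Complex Polynomial ComplexConjugate

namespace Pool.Agent.Y149.PK

open Pool.Agent.Y149.CM (IsFrobenius cone)

theorem frobPt_IsFrobenius (p : Nat.Primes) :
    IsFrobenius (n := 1) (∅ : Set (MvPolynomial (Fin 1) ℤ)) 0 p frobPt where
  weight := by
    intro c z hz
    match c with
    | 0 =>
      have : z = 1 := by simpa [frobPt] using hz
      rw [this]
      simp
    | (k + 1) => simp [frobPt] at hz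
  vanish := by
    intro c hc
    match c with
    | 0 => omega
    | (k + 1) => rfl
  count := by
    intro κ _ _ e he
    have h1 : cone (∅ : Set (MvPolynomial (Fin 1) ℤ)) κ = p ^ e - 1 := by
      unfold cone
      have h2 : Nat.card {u : Fin 1 → κ // u ≠ 0 ∧ ∀ f ∈ (∅ : Set (MvPolynomial (Fin 1) ℤ)),
          MvPolynomial.aeval u f = 0} = Nat.card {x : κ // x ≠ 0} := by
        refine Nat.card_congr ⟨fun u => ⟨u.1 0, fun h => u.2.1 ?_⟩,
          fun x => ⟨fun _ => x.1, ⟨fun h => x.2 (congrFun h 0), fun f hf => ?_⟩⟩,
          fun u => ?_, fun x => rfl⟩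
        · funext i
          rw [Subsingleton.elim i 0, h]
          rfl
        · exact absurd hf (Set.notMem_empty f)
        · ext i
          rw [Subsingleton.elim i 0]
      rw [h2]
      have h3 : Nat.card κ = Nat.card {x : κ // x = 0} + Nat.card {x : κ // ¬ x = 0} := by
        classical
        rw [← Nat.card_sum]
        exact Nat.card_congr (Equiv.sumCompl fun x : κ => x = 0).symm
      have h4 : Nat.card {x : κ // x = 0} = 1 := by
        rw [Nat.card_eq_one_iff_unique]
        exact ⟨⟨fun x y => Subtype.ext (x.2.trans y.2.symm)⟩, ⟨⟨0, rfl⟩⟩⟩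
      rw [he, h4] at h3
      have h5 : Nat.card {x : κ // x ≠ 0} = Nat.card {x : κ // ¬ x = 0} := rfl
      omega
    have hp : 1 ≤ (p : ℕ) ^ e := Nat.one_le_pow _ _ p.2.pos
    rw [h1, Nat.cast_sub hp]
    simp [frobPt]

/-- The point, given by no equation in the projective space of dimension `0`: `H^0 = ℚ` with trivial
Frobenius. -/
def point : Variety where
  vars := 1
  eqs := ∅
  dim := 0
  betti := fun c => if c = 0 then 1 else 0
  frob := fun _ => frobPt
  good := Filter.Eventually.of_forall fun p => ⟨frobPt_IsFrobenius p, fun c => by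
    match c with
    | 0 => simp [frobPt]
    | (k + 1) => simp [frobPt], fun c => by
    match c with
    | 0 => simp [frobPt]
    | (k + 1) => simp [frobPt]⟩

end Pool.Agent.Y149.PK
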