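import Pool.Agent.Y149.PK.Link

/-! Infinite subfamilies in which all products of different members behave as expected. -/

set_option autoImplicit false

namespace Pool.Agent.Y149.PK

open Finset Filter Topology
open Pool.Agent.H341R2 (E lam lam_tendsto)

section
variable {ι : Type}

/-! ### Invariance under permutations -/

theorem PP_coeff (Z : ℕ → Nat.Primes → ℝ) (T : ι → ℕ → Nat.Primes → ℝ) (l : List ι) (n : ℕ)
    (p : Nat.Primes) : PP Z T l n p = PowerSeries.coeff n
      (PowerSeries.mk (fun c => Z c p) * (l.map fun e => PowerSeries.mk fun c => T e c p).prod) := by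
  induction l generalizing n with
  | nil => simp [PP]
  | cons e l ih =>
    rw [List.map_cons, List.prod_cons, mul_left_comm, mul_comm, PowerSeries.coeff_mul, PP]
    refine Finset.sum_congr rfl fun x _ => ?_
    rw [ih, PowerSeries.coeff_mk]

theorem QQ_coeff {A : Type} [CommSemiring A] (z : ℕ → A) (τ : ι → ℕ → A) (l : List ι) (n : ℕ) :
    QQ z τ l n = PowerSeries.coeff n
      (PowerSeries.mk z * (l.map fun e => PowerSeries.mk (τ e)).prod) := by
  induction l generalizing n with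
  | nil => simp [QQ]
  | cons e l ih =>
    rw [List.map_cons, List.prod_cons, mul_left_comm, mul_comm, PowerSeries.coeff_mul, QQ]
    refine Finset.sum_congr rfl fun x _ => ?_
    rw [ih, PowerSeries.coeff_mk]

theorem PP_perm (Z : ℕ → Nat.Primes → ℝ) (T : ι → ℕ → Nat.Primes → ℝ) {l l' : List ι}
    (h : l.Perm l') (n : ℕ) : PP Z T l n = PP Z T l' n := by
  funext p
  rw [PP_coeff, PP_coeff, (h.map _).prod_eq]

theorem QQ_perm {A : Type} [CommSemiring A] (z : ℕ → A) (τ : ι → ℕ → A) {l l' : List ι}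
    (h : l.Perm l') (n : ℕ) : QQ z τ l n = QQ z τ l' n := by
  rw [QQ_coeff, QQ_coeff, (h.map _).prod_eq]

theorem QQ_cast {τ : ι → ℕ → ℤ} (z : ℕ → ℤ) (l : List ι) (n : ℕ) :
    QQ (fun c => (z c : ℝ)) (fun e c => (τ e c : ℝ)) l n = ((QQ z τ l n : ℤ) : ℝ) := by
  induction l generalizing n with
  | nil => rfl
  | cons e l ih =>
    rw [QQ, QQ]
    push_cast
    exact Finset.sum_congr rfl fun x _ => by rw [ih]

/-! ### Vanishing in high degrees -/

theorem bnd_zero {N0 N : ℕ → ℝ} {d₀ d : ℕ} (h0 : ∀ c, d₀ < c → N0 c = 0)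
    (h1 : ∀ c, d < c → N c = 0) (k n : ℕ) (hn : d₀ + k * d < n) : bnd N0 N k n = 0 := by
  induction k generalizing n with
  | zero => exact h0 n (by omega)
  | succ k ih =>
    rw [bnd]
    refine Finset.sum_eq_zero fun x hx => ?_
    have h2 := HasAntidiagonal.mem_antidiagonal.1 hx
    by_cases h3 : d < x.2
    · rw [h1 x.2 h3, mul_zero]
    · rw [ih x.1 (by rw [Nat.add_mul, one_mul] at hn; omega), zero_mul]

theorem QQ_zero {A : Type} [CommSemiring A] {z : ℕ → A} {τ : ι → ℕ → A} {d₀ d : ℕ}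
    (h0 : ∀ c, d₀ < c → z c = 0) (h1 : ∀ e c, d < c → τ e c = 0) (l : List ι) (n : ℕ)
    (hn : d₀ + l.length * d < n) : QQ z τ l n = 0 := by
  induction l generalizing n with
  | nil => exact h0 n (by simpa using hn)
  | cons e l ih =>
    rw [QQ]
    refine Finset.sum_eq_zero fun x hx => ?_
    have h2 := HasAntidiagonal.mem_antidiagonal.1 hx
    by_cases h3 : d < x.2
    · rw [h1 e x.2 h3, mul_zero]
    · rw [ih x.1 (by rw [List.length_cons, Nat.add_mul, one_mul] at hn; omega), zero_mul]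

variable {R : ι → ι → Prop} {M : ℕ} {T : ι → ℕ → Nat.Primes → ℝ} {τ : ι → ℕ → ℤ} {N t v : ℕ → ℝ}
  {Z : ℕ → Nat.Primes → ℝ} {N0 : ℕ → ℝ} {z : ℕ → ℤ} {r : List ι → ℕ → ℤ}

/-- **One more member.** -/
theorem Fam.step (h : Fam R M T (fun e c => (τ e c : ℝ)) N t v) (hZ : ∀ n p, |Z n p| ≤ N0 n)
    (hr : ∀ l n, Tendsto (fun ε => E ε (PP Z T l n) / lam ε) (𝓝[>] 0) (𝓝 (r l n : ℝ)))
    {l : List ι} (hl : ∀ n, r l n = QQ z τ l n) (n : ℕ) :
    {e | r (e :: l) n ≠ QQ z τ (e :: l) n}.Finite := by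
  classical
  set K : ℝ := KK (fun n => bnd N0 N l.length n) N t v (Real.sqrt (2 * M)) 1 n ^ 2 with hK
  have key : ∀ S : Finset ι, (∀ e ∈ S, r (e :: l) n ≠ QQ z τ (e :: l) n) → (S.card : ℝ) ≤ K := by
    intro S hS
    refine le_of_forall_pos_le_add fun η hη => ?_
    have h1 := h.mean_sq (Z := PP Z T l) (N0 := fun n => bnd N0 N l.length n)
      (fun n p => PP_le h.bd hZ l n p) S 1 n hη
    have h2 : ∀ e : ι, Tendsto (fun ε => dd (PP Z T l) T (fun e c => (τ e c : ℝ)) ε [e] n)
        (𝓝[>] 0) (𝓝 (((r (e :: l) n - QQ z τ (e :: l) n : ℤ)) : ℝ)) := by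
      intro e
      have h3 : Tendsto (fun ε => QQ (fun c => E ε (PP Z T l c) / lam ε)
          (fun e c => (τ e c : ℝ)) [e] n) (𝓝[>] 0)
          (𝓝 (QQ (fun c => (r l c : ℝ)) (fun e c => (τ e c : ℝ)) [e] n)) :=
        QQ_lim (z := fun c ε => E ε (PP Z T l c) / lam ε) _ [e] n fun c _ => hr l c
      have h4 : QQ (fun c => (r l c : ℝ)) (fun e c => (τ e c : ℝ)) [e] n =
          ((QQ z τ (e :: l) n : ℤ) : ℝ) := by
        rw [QQ_cast]
        congr 1
        simp only [QQ]
        exact Finset.sum_congr rfl fun x _ => by rw [hl]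
      rw [h4] at h3
      have h5 := (hr (e :: l) n).sub h3
      rw [← Int.cast_sub] at h5
      exact h5
    have h3 : ∑ e ∈ S, (1 : ℝ) ≤
        ∑ e ∈ S, (((r (e :: l) n - QQ z τ (e :: l) n : ℤ)) : ℝ) ^ 2 := by
      refine Finset.sum_le_sum fun e he => ?_
      have h4 : r (e :: l) n - QQ z τ (e :: l) n ≠ 0 := sub_ne_zero.2 (hS e he)
      have h5 : (1 : ℤ) ≤ (r (e :: l) n - QQ z τ (e :: l) n) ^ 2 := by
        have := pow_pos (abs_pos.2 h4) 2
        rw [sq_abs] at this
        exact this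
      exact_mod_cast h5
    have h4 : Tendsto (fun ε => ∑ e ∈ S,
        dd (PP Z T l) T (fun e c => (τ e c : ℝ)) ε [e] n ^ 2) (𝓝[>] 0)
        (𝓝 (∑ e ∈ S, (((r (e :: l) n - QQ z τ (e :: l) n : ℤ)) : ℝ) ^ 2)) :=
      tendsto_finsetSum _ fun e _ => (h2 e).pow 2
    rw [Finset.sum_const, nsmul_eq_mul, mul_one] at h3
    refine h3.trans (le_of_tendsto h4 ?_)
    filter_upwards [h1] with ε h5
    rw [Nat.sub_self, pow_zero, mul_one] at h5
    refine le_trans (le_of_eq ?_) h5
    refine Finset.sum_nbij' (fun e => fun _ => e) (fun l' => l' 0) ?_ ?_ ?_ ?_ ?_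
    · intro e he
      exact Fintype.mem_piFinset.2 fun _ => he
    · intro l' hl'
      exact Fintype.mem_piFinset.1 hl' 0
    · intro e _
      rfl
    · intro l' _
      funext i
      rw [Subsingleton.elim i 0]
    · intro e _
      simp
  by_contra hinf
  obtain ⟨S, hS1, hS2⟩ := Set.Infinite.exists_subset_card_eq hinf (⌊K⌋₊ + 1)
  have h1 := key S fun e he => hS1 he
  rw [hS2] at h1
  have h2 := Nat.lt_floor_add_one K
  push_cast at h1
  linarith

/-- all products of different members of the finite set are as expected -/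
def HH (r : List ι → ℕ → ℤ) (z : ℕ → ℤ) (τ : ι → ℕ → ℤ) (F : Finset ι) : Prop :=
  ∀ A ⊆ F, ∀ n, r A.toList n = QQ z τ A.toList n

theorem Fam.extend [Infinite ι] (h : Fam R M T (fun e c => (τ e c : ℝ)) N t v)
    (hZ : ∀ n p, |Z n p| ≤ N0 n)
    (hr : ∀ l n, Tendsto (fun ε => E ε (PP Z T l n) / lam ε) (𝓝[>] 0) (𝓝 (r l n : ℝ)))
    {d₀ d : ℕ} (h0 : ∀ c, d₀ < c → N0 c = 0) (h1 : ∀ c, d < c → N c = 0)
    (hz0 : ∀ c, d₀ < c → z c = 0) (hτ0 : ∀ e c, d < c → τ e c = 0) {F : Finset ι}
    (hF : HH r z τ F) : ∃ e, e ∉ F ∧ ∀ F' : Finset ι, (∀ x ∈ F', x ∈ F ∨ x = e) → HH r z τ F' := by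
  classical
  have hfin : (⋃ A ∈ (F.powerset : Set (Finset ι)),
      ⋃ n ∈ (Finset.range (d₀ + (F.card + 1) * d + 1) : Set ℕ),
      {e | r (e :: A.toList) n ≠ QQ z τ (e :: A.toList) n}).Finite := by
    refine Set.Finite.biUnion (Finset.finite_toSet _) fun A hA => ?_
    refine Set.Finite.biUnion (Finset.finite_toSet _) fun n _ => ?_
    exact h.step hZ hr (hF A (Finset.mem_powerset.1 hA)) n
  obtain ⟨e, he⟩ := ((hfin.union F.finite_toSet).infinite_compl).nonempty
  rw [Set.mem_compl_iff, Set.mem_union, not_or] at he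
  refine ⟨e, he.2, fun F' hF' A hA n => ?_⟩
  have hperm : ∀ l l' : List ι, l.Perm l' → ∀ n, r l n = r l' n := by
    intro l l' hp n
    have g1 := hr l n
    rw [PP_perm Z T hp] at g1
    exact_mod_cast tendsto_nhds_unique g1 (hr l' n)
  by_cases heA : e ∈ A
  · set A' := A.erase e with hA'
    have h2 : A'⊆ F := by
      intro x hx
      rcases hF' x (hA (Finset.mem_of_mem_erase hx)) with h3 | h3
      · exact h3
      · exact absurd h3 (Finset.ne_of_mem_erase hx)
    have h3 : A.toList.Perm (e :: A'.toList) := by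
      rw [← Finset.insert_erase heA]
      exact Finset.toList_insert (Finset.notMem_erase e A)
    rw [hperm _ _ h3, QQ_perm z τ h3]
    by_cases hn : n ≤ d₀ + (F.card + 1) * d
    · by_contra h4
      apply he.1
      simp only [Set.mem_iUnion]
      exact ⟨A', by simpa using h2, n, by simp; omega, h4⟩
    · have hlen : (e :: A'.toList).length ≤ F.card + 1 := by
        rw [List.length_cons, Finset.length_toList]
        exact Nat.succ_le_succ (Finset.card_le_card h2)
      have hbig : d₀ + (e :: A'.toList).length * d < n := by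
        have := Nat.mul_le_mul_right d hlen
        omega
      rw [QQ_zero hz0 hτ0 _ _ hbig]
      have h5 : PP Z T (e :: A'.toList) n = fun _ => 0 := by
        funext p
        have h6 := PP_le h.bd hZ (e :: A'.toList) n p
        rw [bnd_zero h0 h1 _ _ hbig] at h6
        exact abs_nonpos_iff.1 h6
      have h6 := hr (e :: A'.toList) n
      rw [h5] at h6
      have h7 : (fun ε : ℝ => E ε (fun _ => 0) / lam ε) = fun _ => 0 := by
        funext ε
        unfold E
        simp
      rw [h7] at h6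
      have h8 := tendsto_nhds_unique h6 tendsto_const_nhds
      exact_mod_cast h8
  · refine hF A (fun x hx => ?_) n
    rcases hF' x (hA hx) with h3 | h3
    · exact h3
    · rw [h3] at hx
      exact absurd hx heA

/-- **The infinite subfamily.** -/
theorem Fam.subfamily [Infinite ι] (h : Fam R M T (fun e c => (τ e c : ℝ)) N t v)
    (hZ : ∀ n p, |Z n p| ≤ N0 n)
    (hr : ∀ l n, Tendsto (fun ε => E ε (PP Z T l n) / lam ε) (𝓝[>] 0) (𝓝 (r l n : ℝ)))
    {d₀ d : ℕ} (h0 : ∀ c, d₀ < c → N0 c = 0) (h1 : ∀ c, d < c → N c = 0)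
    (hz0 : ∀ c, d₀ < c → z c = 0) (hτ0 : ∀ e c, d < c → τ e c = 0)
    (hz : ∀ c, r [] c = z c) :
    ∃ 𝒥 : Set ι, 𝒥.Infinite ∧ ∀ (k : ℕ) (l : Fin k → ι), Function.Injective l →
      (∀ i, l i ∈ 𝒥) → ∀ n, r (List.ofFn l) n = QQ z τ (List.ofFn l) n := by
  classical
  have hH0 : HH r z τ ∅ := by
    intro A hA n
    rw [Finset.subset_empty.1 hA, Finset.toList_empty]
    exact hz n
  have hstep : ∀ F : {F : Finset ι // HH r z τ F}, ∃ F' : {F : Finset ι // HH r z τ F},
      F.1 ⊆ F'.1 ∧ F'.1.card = F.1.card + 1 := by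
    intro F
    obtain ⟨e, he, h2⟩ := h.extend hZ hr h0 h1 hz0 hτ0 F.2
    refine ⟨⟨insert e F.1, h2 _ fun x hx => ?_⟩, Finset.subset_insert _ _,
      Finset.card_insert_of_notMem he⟩
    rcases Finset.mem_insert.1 hx with h3 | h3
    · exact Or.inr h3
    · exact Or.inl h3
  choose nxt hn1 hn2 using hstep
  set seq : ℕ → {F : Finset ι // HH r z τ F} := fun i => nxt^[i] ⟨∅, hH0⟩ with hseq
  have hs : ∀ i, seq (i + 1) = nxt (seq i) := fun i => Function.iterate_succ_apply' _ _ _
  have hmono : ∀ i j, i ≤ j → (seq i).1 ⊆ (seq j).1 := by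
    intro i j hij
    induction j, hij using Nat.le_induction with
    | base => exact Finset.Subset.refl _
    | succ j _ ih =>
      rw [hs]
      exact ih.trans (hn1 _)
  have hcard : ∀ i, (seq i).1.card = i := by
    intro i
    induction i with
    | zero => simp [hseq]
    | succ i ih => rw [hs, hn2, ih]
  refine ⟨⋃ i, ((seq i).1 : Set ι), ?_, ?_⟩
  · intro hfin
    have h2 : ∀ i, i ≤ hfin.toFinset.card := by
      intro i
      rw [← hcard i]
      refine Finset.card_le_card fun x hx => ?_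
      rw [Set.Finite.mem_toFinset]
      exact Set.mem_iUnion.2 ⟨i, hx⟩
    have := h2 (hfin.toFinset.card + 1)
    omega
  · intro k l hl hmem n
    have h2 : ∀ i, ∃ j, l i ∈ (seq j).1 := fun i => by
      obtain ⟨j, hj⟩ := Set.mem_iUnion.1 (hmem i)
      exact ⟨j, hj⟩
    choose j hj using h2
    set J := Finset.univ.sup j with hJ
    have h3 : ∀ i, l i ∈ (seq J).1 := fun i =>
      hmono (j i) J (Finset.le_sup (Finset.mem_univ i)) (hj i)
    set A : Finset ι := Finset.univ.image l with hA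
    have h4 : A ⊆ (seq J).1 := by
      intro x hx
      obtain ⟨i, _, rfl⟩ := Finset.mem_image.1 hx
      exact h3 i
    have h5 : A.toList.Perm (List.ofFn l) := by
      rw [List.perm_ext_iff_of_nodup (Finset.nodup_toList _) (List.nodup_ofFn.2 hl)]
      intro x
      rw [Finset.mem_toList, List.mem_ofFn, hA, Finset.mem_image]
      simp
    have h6 := (seq J).2 A h4 n
    have hperm : ∀ l l' : List ι, l.Perm l' → ∀ n, r l n = r l' n := by
      intro l l' hp n
      have g1 := hr l n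
      rw [PP_perm Z T hp] at g1
      exact_mod_cast tendsto_nhds_unique g1 (hr l' n)
    rw [← hperm _ _ h5, ← QQ_perm z τ h5]
    exact h6

end

end Pool.Agent.Y149.PK
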