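import Pool.Agent.Y149.PK.Main
import Pool.Agent.Y149.PK.Sub
import Pool.Agent.Y149.PK.Point

/-! The final forms. -/

set_option autoImplicit false

open Finset Filter Topology Complex Polynomial ComplexConjugate

namespace Pool.Agent.Y149.PK

open Pool.Agent.H341R2 (E lam lam_tendsto lam_bounded)
open Pool.Agent.Y149.CM (LFun kunneth nt IsFrobenius sum_product cone)
open Pool.Agent.Y722.EP (IsModular IsNewformOf NotIsogenous points)
open Pool.Agent.Y722.RS (S2)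

theorem Variety.VG (X : Variety) : ∀ᶠ p in cofinite, VG X.betti p (X.frob p) :=
  X.good.mono fun _ h => frobenius_VG h.1 fun a => (h.2.2 a).le

theorem Variety.GG (X : Variety) {N : ℕ → ℕ} (hN : ∀ c, X.betti c ≤ N c) :
    ∀ᶠ p in cofinite, GG N p (X.frob p) :=
  X.good.mono fun _ h => ⟨frobenius_VG h.1 fun a => (h.2.2 a).le.trans (hN a), h.2.1⟩

/-- the sizes of the fixed variety -/
theorem base_size (X : Variety) {c : ℕ} {B : Nat.Primes → ℂ[X]}
    (h : IsEuler c (fun p => X.frob p c) B) :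
    Tendsto (fun ε => size c B ε - E ε (ZZ X.betti X.frob c) / lam ε) (𝓝[>] 0) (𝓝 0) :=
  size_sub (ZZ_le X.betti X.frob c) (link_base X.VG h)

theorem base_order (X : Variety) {c : ℕ} {B : Nat.Primes → ℂ[X]}
    (h : IsEuler c (fun p => X.frob p c) B) {r : ℤ} (hr : HasOrder c B (-r)) :
    Tendsto (fun ε => (r : ℝ) - E ε (ZZ X.betti X.frob c) / lam ε) (𝓝[>] 0) (𝓝 0) := by
  have h1 := (base_size X h).sub ((size_order hr).sub_const (r : ℝ))
  rw [sub_self, sub_zero] at h1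
  exact h1.congr fun ε => by ring

theorem base_ne (X : Variety) {c : ℕ} {B : Nat.Primes → ℂ[X]}
    (h : IsEuler c (fun p => X.frob p c) B) :
    ∀ᶠ ε : ℝ in 𝓝[>] 0, LFun B ((c : ℂ) / 2 + 1 + ε) ≠ 0 := by
  obtain ⟨C, hC⟩ := link_base X.VG h
  exact hC.mono fun ε h1 => h1.1

theorem bases_ne (X : Variety) {B : ℕ → Nat.Primes → ℂ[X]}
    (h : ∀ c, IsEuler c (fun p => X.frob p c) (B c)) (n : ℕ) :
    ∀ᶠ ε : ℝ in 𝓝[>] 0, ∀ c, c ≤ n → LFun (B c) ((c : ℂ) / 2 + 1 + ε) ≠ 0 := by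
  have h1 : ∀ᶠ ε : ℝ in 𝓝[>] 0, ∀ c ∈ Finset.range (n + 1),
      LFun (B c) ((c : ℂ) / 2 + 1 + ε) ≠ 0 := by
    rw [Filter.eventually_all_finset]
    exact fun c _ => base_ne X (h c)
  exact h1.mono fun ε h2 c hc => h2 c (Finset.mem_range.2 (by omega))

section
variable {ι : Type} {M : ℕ} {a b : ι → ℤ}

theorem ell_choose (h : IsEllipticFamily M a b) : ∃ (Nf : ι → ℕ) (_ : ∀ i, NeZero (Nf i))
    (f : ∀ i, S2 (Nf i)), ∀ i, IsNewformOf (f i) (a i) (b i) := by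
  choose Nf hN f hf using h.modular
  exact ⟨Nf, hN, f, hf⟩

theorem QQ_ell {k : ℕ} (z : ℕ → ℝ) (l : Fin k → ι) (n : ℕ) :
    QQ z (fun _ => tE) (List.ofFn l) n = evenPart z k n := by
  rw [QQ_const, List.length_ofFn, bnd_even]

/-- **Elliptic curves, mean square.** -/
theorem ell_mean (h : IsEllipticFamily M a b) (X : Variety) {B₀ : ℕ → Nat.Primes → ℂ[X]}
    (h₀ : ∀ c, IsEuler c (fun p => X.frob p c) (B₀ c)) {k n : ℕ}
    {B : (Fin k → ι) → Nat.Primes → ℂ[X]}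
    (hB : ∀ l, IsEuler n (fun p => frobProd (X.frob p) (fun i => frobE (a i) (b i) p)
      (List.ofFn l) n) (B l)) (J : Finset ι) {η : ℝ} (hη : 0 < η) :
    ∀ᶠ ε : ℝ in 𝓝[>] 0, (∀ l ∈ tuples J k, LFun (B l) ((n : ℂ) / 2 + 1 + ε) ≠ 0) ∧
      ∑ l ∈ tuples J k, (size n (B l) ε - evenPart (fun c => size c (B₀ c) ε) k n) ^ 2 ≤
        M / 2 * ((dimH X.betti k n : ℝ) - (evenPart X.betti k n : ℕ)) ^ 2 *
          (J.card : ℝ) ^ (k - 1) + η := by
  obtain ⟨Nf, hN, f, hf⟩ := ell_choose h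
  have h1 := main_gen (T := fun i => TE (f i)) (fam_ell hf h.mult) X.VG
    (γ := fun i p => frobE (a i) (b i) p) (fun i => (ell_local hf h.disc i).1)
    (fun i => (ell_local hf h.disc i).2) hB (z := fun c ε => size c (B₀ c) ε)
    (fun c _ => base_size X (h₀ c)) J hη
  rw [KK_ell] at h1
  filter_upwards [h1] with ε h2
  refine ⟨h2.1, ?_⟩
  have h3 := h2.2
  simp only [QQ_ell] at h3
  exact h3

/-- elliptic curves, orders, general form -/
theorem ell_order_gen (h : IsEllipticFamily M a b) (X : Variety) {k n : ℕ}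
    {B : (Fin k → ι) → Nat.Primes → ℂ[X]}
    (hB : ∀ l, IsEuler n (fun p => frobProd (X.frob p) (fun i => frobE (a i) (b i) p)
      (List.ofFn l) n) (B l)) {z : ℕ → ℤ}
    (hz : ∀ c, c ≤ n → Even (n - c) →
      Tendsto (fun ε => (z c : ℝ) - E ε (ZZ X.betti X.frob c) / lam ε) (𝓝[>] 0) (𝓝 0))
    (J : Finset ι) (S : Finset (Fin k → ι)) (r : (Fin k → ι) → ℤ)
    (hS : ∀ l ∈ S, (∀ i, l i ∈ J) ∧ HasOrder n (B l) (-(r l))) :
    2 * ∑ l ∈ S, (r l - evenPart z k n) ^ 2 ≤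
      M * ((dimH X.betti k n : ℤ) - (evenPart X.betti k n : ℕ)) ^ 2 * (J.card : ℤ) ^ (k - 1) := by
  classical
  obtain ⟨Nf, hN, f, hf⟩ := ell_choose h
  have h1 := main_order (T := fun i => TE (f i)) (fam_ell hf h.mult) X.VG
    (γ := fun i p => frobE (a i) (b i) p) (fun i => (ell_local hf h.disc i).1)
    (fun i => (ell_local hf h.disc i).2) hB
    (z := fun c ε => if Even (n - c) then (z c : ℝ) else E ε (ZZ X.betti X.frob c) / lam ε)
    (fun c hc => by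
      split_ifs with he
      · exact hz c hc he
      · simp) (q := fun _ => ((evenPart z k n : ℤ) : ℝ)) (fun l ε => by
      rw [QQ_ell, ← evenPart_cast_int]
      unfold evenPart
      refine Finset.sum_congr rfl fun c hc => ?_
      have hc' := Finset.mem_range.1 hc
      have he : Even (n - (n - 2 * c)) := ⟨c, by omega⟩
      dsimp only
      rw [if_pos he]) J S r hS
  rw [KK_ell] at h1
  have h2 : ((2 * ∑ l ∈ S, (r l - evenPart z k n) ^ 2 : ℤ) : ℝ) ≤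
      ((M * ((dimH X.betti k n : ℤ) - (evenPart X.betti k n : ℕ)) ^ 2 *
        (J.card : ℤ) ^ (k - 1) : ℤ) : ℝ) := by
    push_cast
    push_cast at h1
    linarith
  exact_mod_cast h2

/-- **Elliptic curves, orders.** -/
theorem ell_order (h : IsEllipticFamily M a b) (X : Variety) {B₀ : ℕ → Nat.Primes → ℂ[X]}
    (h₀ : ∀ c, IsEuler c (fun p => X.frob p c) (B₀ c)) {k n : ℕ}
    {B : (Fin k → ι) → Nat.Primes → ℂ[X]}
    (hB : ∀ l, IsEuler n (fun p => frobProd (X.frob p) (fun i => frobE (a i) (b i) p)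
      (List.ofFn l) n) (B l)) {r₀ : ℕ → ℤ}
    (hr₀ : ∀ c, c ≤ n → Even (n - c) → HasOrder c (B₀ c) (-(r₀ c)))
    (J : Finset ι) (S : Finset (Fin k → ι)) (r : (Fin k → ι) → ℤ)
    (hS : ∀ l ∈ S, (∀ i, l i ∈ J) ∧ HasOrder n (B l) (-(r l))) :
    2 * ∑ l ∈ S, (r l - evenPart r₀ k n) ^ 2 ≤
      M * ((dimH X.betti k n : ℤ) - (evenPart X.betti k n : ℕ)) ^ 2 * (J.card : ℤ) ^ (k - 1) :=
  ell_order_gen h X hB (fun c hc he => base_order X (h₀ c) (hr₀ c hc he)) J S r hS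

end

/-! ### The point -/

theorem point_dimH (k n : ℕ) : dimH point.betti k n = (2 * k).choose n := by
  unfold dimH point
  rw [Finset.sum_eq_single 0]
  · simp
  · intro c _ hc
    simp [hc]
  · intro h
    exact absurd (Finset.mem_range.2 (by omega)) h

theorem point_even {A : Type} [Semiring A] (z : ℕ → A) (hz : ∀ c, z c = if c = 0 then 1 else 0)
    (k m : ℕ) : evenPart z k (2 * m) = (k.choose m : A) := by
  unfold evenPart
  rw [Finset.sum_eq_single m]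
  · rw [hz, if_pos (by omega), mul_one]
  · intro c hc hcm
    have := Finset.mem_range.1 hc
    rw [hz, if_neg (by omega), mul_zero]
  · intro h
    exact absurd (Finset.mem_range.2 (by omega)) h

theorem point_ZZ (c : ℕ) (p : Nat.Primes) :
    ZZ point.betti point.frob c p = if c = 0 then 1 else 0 := by
  have h1 : VG point.betti p (point.frob p) :=
    frobenius_VG (frobPt_IsFrobenius p) fun a => by
      match a with
      | 0 => simp [frobPt, point]
      | (k + 1) => simp [frobPt, point]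
  rw [← ZZ_eq h1]
  unfold nt point
  match c with
  | 0 => simp [frobPt]
  | (k + 1) => simp [frobPt]

theorem point_lim (c : ℕ) : Tendsto (fun ε => (((if c = 0 then 1 else 0 : ℤ)) : ℝ) -
    E ε (ZZ point.betti point.frob c) / lam ε) (𝓝[>] 0) (𝓝 0) := by
  refine tendsto_const_nhds.congr' ?_
  filter_upwards [lam_pos] with ε hε
  have e : ZZ point.betti point.frob c = fun _ => if c = 0 then 1 else 0 := by
    funext p
    exact point_ZZ c p
  rw [e]
  split_ifs with h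
  · rw [E_one, div_self hε.ne']
    simp
  · rw [E_zero]
    simp

section
variable {ι : Type} {M : ℕ} {a b : ι → ℤ}

/-- **Products of elliptic curves.** -/
theorem ell_point (h : IsEllipticFamily M a b) {k m : ℕ}
    {B : (Fin k → ι) → Nat.Primes → ℂ[X]}
    (hB : ∀ l, IsEuler (2 * m) (fun p => frobProd (point.frob p) (fun i => frobE (a i) (b i) p)
      (List.ofFn l) (2 * m)) (B l))
    (J : Finset ι) (S : Finset (Fin k → ι)) (r : (Fin k → ι) → ℤ)
    (hS : ∀ l ∈ S, (∀ i, l i ∈ J) ∧ HasOrder (2 * m) (B l) (-(r l))) :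
    2 * ∑ l ∈ S, (r l - k.choose m) ^ 2 ≤
      M * (((2 * k).choose (2 * m) : ℤ) - k.choose m) ^ 2 * (J.card : ℤ) ^ (k - 1) := by
  have h1 := ell_order_gen h point hB (z := fun c => if c = 0 then 1 else 0)
    (fun c _ _ => point_lim c) J S r hS
  rw [point_dimH, point_even (A := ℤ) _ (fun c => rfl),
    point_even (A := ℕ) point.betti (fun c => rfl)] at h1
  simpa using h1

end

/-! ### General families -/

section
variable {ι : Type}

theorem KK_gen (N0 N : ℕ → ℕ) (M k n : ℕ) :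
    KK (fun a => (N0 a : ℝ)) (fun c => (N c : ℝ)) (fun c => (N c : ℝ)) (fun c => (N c : ℝ))
      (Real.sqrt (2 * M)) k n ^ 2 = 2 * M * (k * (dimY N0 N k n : ℝ)) ^ 2 := by
  rw [KK_full, bnd_cast, mul_pow, mul_pow, Real.sq_sqrt (by positivity)]
  ring

/-- The hypotheses on a family of varieties `Y e`: the orders of the `L`-functions of the cohomology
groups of one member, and for two members which are not related the orders of the
`L`-functions of `H^c(Y_e) ⊗ H^c(Y_{e'})`. -/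
theorem gen_fam {Y : ι → Variety} {N : ℕ → ℕ} (hN : ∀ e c, (Y e).betti c ≤ N c)
    {R : ι → ι → Prop} {M : ℕ} (hsymm : ∀ e e', R e e' → R e' e)
    (hM : ∀ (e : ι) (S : Finset ι), (∀ e' ∈ S, R e e') → S.card ≤ M)
    {B₁ : ι → ℕ → Nat.Primes → ℂ[X]} (h₁ : ∀ e c, IsEuler c (fun p => (Y e).frob p c) (B₁ e c))
    {τ : ι → ℕ → ℤ} (hτ : ∀ e c, HasOrder c (B₁ e c) (-(τ e c)))
    {B₂ : ι → ι → ℕ → Nat.Primes → ℂ[X]}
    (h₂ : ∀ e e' c, ¬ R e e' →
      IsEuler (2 * c) (fun p => tens ((Y e).frob p c) ((Y e').frob p c)) (B₂ e e' c))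
    (hτ₂ : ∀ e e' c, ¬ R e e' → HasOrder (2 * c) (B₂ e e' c) (-(τ e c * τ e' c))) :
    Fam R M (TG N fun e => (Y e).frob) (fun e c => (τ e c : ℝ)) (fun c => (N c : ℝ))
      (fun c => (N c : ℝ)) (fun c => (N c : ℝ)) :=
  fam_gen hsymm hM (fun e => (Y e).GG (hN e)) h₁ hτ h₂ hτ₂

/-- **General families, mean square.** -/
theorem gen_mean {Y : ι → Variety} {N : ℕ → ℕ} (hN : ∀ e c, (Y e).betti c ≤ N c)
    {R : ι → ι → Prop} {M : ℕ} (hsymm : ∀ e e', R e e' → R e' e)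
    (hM : ∀ (e : ι) (S : Finset ι), (∀ e' ∈ S, R e e') → S.card ≤ M)
    {B₁ : ι → ℕ → Nat.Primes → ℂ[X]} (h₁ : ∀ e c, IsEuler c (fun p => (Y e).frob p c) (B₁ e c))
    {τ : ι → ℕ → ℤ} (hτ : ∀ e c, HasOrder c (B₁ e c) (-(τ e c)))
    {B₂ : ι → ι → ℕ → Nat.Primes → ℂ[X]}
    (h₂ : ∀ e e' c, ¬ R e e' →
      IsEuler (2 * c) (fun p => tens ((Y e).frob p c) ((Y e').frob p c)) (B₂ e e' c))
    (hτ₂ : ∀ e e' c, ¬ R e e' → HasOrder (2 * c) (B₂ e e' c) (-(τ e c * τ e' c)))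
    (X : Variety) {B₀ : ℕ → Nat.Primes → ℂ[X]}
    (h₀ : ∀ c, IsEuler c (fun p => X.frob p c) (B₀ c)) {k n : ℕ}
    {B : (Fin k → ι) → Nat.Primes → ℂ[X]}
    (hB : ∀ l, IsEuler n (fun p => frobProd (X.frob p) (fun e => (Y e).frob p) (List.ofFn l) n)
      (B l)) (J : Finset ι) {η : ℝ} (hη : 0 < η) :
    ∀ᶠ ε : ℝ in 𝓝[>] 0, (∀ l ∈ tuples J k, LFun (B l) ((n : ℂ) / 2 + 1 + ε) ≠ 0) ∧
      ∑ l ∈ tuples J k,
        (size n (B l) ε - QQ (fun c => size c (B₀ c) ε) (fun e c => (τ e c : ℝ)) (List.ofFn l) n) ^ 2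
        ≤ 2 * M * (k * (dimY X.betti N k n : ℝ)) ^ 2 * (J.card : ℝ) ^ (k - 1) + η := by
  have h1 := main_gen (gen_fam hN hsymm hM h₁ hτ h₂ hτ₂) X.VG (γ := fun e p => (Y e).frob p)
    (fun e => ((Y e).GG (hN e)).mono fun p hp => hp.1)
    (fun e => ((Y e).GG (hN e)).mono fun p hp c => TG_eq hp c) hB
    (z := fun c ε => size c (B₀ c) ε) (fun c _ => base_size X (h₀ c)) J hη
  rw [KK_gen] at h1
  exact h1

/-- **General families, orders.** -/
theorem gen_order {Y : ι → Variety} {N : ℕ → ℕ} (hN : ∀ e c, (Y e).betti c ≤ N c)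
    {R : ι → ι → Prop} {M : ℕ} (hsymm : ∀ e e', R e e' → R e' e)
    (hM : ∀ (e : ι) (S : Finset ι), (∀ e' ∈ S, R e e') → S.card ≤ M)
    {B₁ : ι → ℕ → Nat.Primes → ℂ[X]} (h₁ : ∀ e c, IsEuler c (fun p => (Y e).frob p c) (B₁ e c))
    {τ : ι → ℕ → ℤ} (hτ : ∀ e c, HasOrder c (B₁ e c) (-(τ e c)))
    {B₂ : ι → ι → ℕ → Nat.Primes → ℂ[X]}
    (h₂ : ∀ e e' c, ¬ R e e' →
      IsEuler (2 * c) (fun p => tens ((Y e).frob p c) ((Y e').frob p c)) (B₂ e e' c))
    (hτ₂ : ∀ e e' c, ¬ R e e' → HasOrder (2 * c) (B₂ e e' c) (-(τ e c * τ e' c)))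
    (X : Variety) {B₀ : ℕ → Nat.Primes → ℂ[X]}
    (h₀ : ∀ c, IsEuler c (fun p => X.frob p c) (B₀ c)) {k n : ℕ}
    {B : (Fin k → ι) → Nat.Primes → ℂ[X]}
    (hB : ∀ l, IsEuler n (fun p => frobProd (X.frob p) (fun e => (Y e).frob p) (List.ofFn l) n)
      (B l)) {r₀ : ℕ → ℤ} (hr₀ : ∀ c, c ≤ n → HasOrder c (B₀ c) (-(r₀ c)))
    (J : Finset ι) (S : Finset (Fin k → ι)) (r : (Fin k → ι) → ℤ)
    (hS : ∀ l ∈ S, (∀ i, l i ∈ J) ∧ HasOrder n (B l) (-(r l))) :
    ∑ l ∈ S, (r l - QQ r₀ τ (List.ofFn l) n) ^ 2 ≤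
      2 * M * (k * (dimY X.betti N k n : ℤ)) ^ 2 * (J.card : ℤ) ^ (k - 1) := by
  have h1 := main_order (gen_fam hN hsymm hM h₁ hτ h₂ hτ₂) X.VG (γ := fun e p => (Y e).frob p)
    (fun e => ((Y e).GG (hN e)).mono fun p hp => hp.1)
    (fun e => ((Y e).GG (hN e)).mono fun p hp c => TG_eq hp c) hB
    (z := fun c _ => (r₀ c : ℝ)) (fun c hc => base_order X (h₀ c) (hr₀ c hc))
    (q := fun l => ((QQ r₀ τ (List.ofFn l) n : ℤ) : ℝ)) (fun l ε => QQ_cast r₀ _ n) J S r hS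
  rw [KK_gen] at h1
  exact_mod_cast h1

end

/-! ### Infinite subfamilies -/

theorem Variety.betti_zero (X : Variety) {c : ℕ} (hc : 2 * X.dim < c) : X.betti c = 0 := by
  obtain ⟨p, h1, _, h3⟩ := X.good.exists
  rw [← h3 c, h1.vanish c hc, Multiset.card_zero]

/-- the number of algebraic classes of an elliptic curve, as an integer -/
def tZ (c : ℕ) : ℤ := if c = 0 ∨ c = 2 then 1 else 0

theorem tZ_cast : (fun c => (tZ c : ℝ)) = tE := by
  funext c
  unfold tZ tE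
  split_ifs <;> simp

theorem ZZ_lim (X : Variety) {c : ℕ} {B : Nat.Primes → ℂ[X]}
    (h : IsEuler c (fun p => X.frob p c) B) {r : ℤ} (hr : HasOrder c B (-r)) :
    Tendsto (fun ε => E ε (ZZ X.betti X.frob c) / lam ε) (𝓝[>] 0) (𝓝 (r : ℝ)) := by
  have h1 := (base_order X h hr).const_sub (r : ℝ)
  rw [sub_zero] at h1
  exact h1.congr fun ε => by ring

section
variable {ι : Type} {M : ℕ} {a b : ι → ℤ}

theorem QQ_tZ (z : ℕ → ℤ) (l : List ι) (n : ℕ) :
    QQ z (fun _ => tZ) l n = evenPart z l.length n := by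
  have h1 : ((QQ z (fun _ => tZ) l n : ℤ) : ℝ) = ((evenPart z l.length n : ℤ) : ℝ) := by
    have e : (fun (_ : ι) c => ((tZ c : ℤ) : ℝ)) = fun _ => tE := by
      funext _
      exact tZ_cast
    rw [← QQ_cast, ← evenPart_cast_int, ← bnd_even, e, QQ_const]
  exact_mod_cast h1

/-- **Elliptic curves, an infinite subfamily.** -/
theorem ell_sub [Infinite ι] (h : IsEllipticFamily M a b) (X : Variety)
    {B : List ι → ℕ → Nat.Primes → ℂ[X]} (hB : IsEllSystem X a b B)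
    {r : List ι → ℕ → ℤ} (hr : ∀ l n, HasOrder n (B l n) (-(r l n))) :
    ∃ 𝒥 : Set ι, 𝒥.Infinite ∧ ∀ (k : ℕ) (l : Fin k → ι), Function.Injective l →
      (∀ i, l i ∈ 𝒥) → ∀ n, r (List.ofFn l) n = evenPart (r []) k n := by
  obtain ⟨Nf, hN, f, hf⟩ := ell_choose h
  have hfam := fam_ell hf h.mult
  rw [← tZ_cast] at hfam
  have hb0 : ∀ c, 2 * X.dim < c → ((X.betti c : ℕ) : ℝ) = 0 := fun c hc => by
    rw [X.betti_zero hc]
    simp
  have hlim : ∀ l n, Tendsto (fun ε => E ε (PP (ZZ X.betti X.frob) (fun i => TE (f i)) l n) /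
      lam ε) (𝓝[>] 0) (𝓝 (r l n : ℝ)) := by
    intro l n
    have h1 := size_sub (fun p => PP_le hfam.bd (ZZ_le X.betti X.frob) l n p)
      (link_prod X.VG (γ := fun i p => frobE (a i) (b i) p)
        (fun i => (ell_local hf h.disc i).1) (fun i => (ell_local hf h.disc i).2) hfam.bd l (hB l n))
    have h2 := (size_order (hr l n)).sub h1
    rw [sub_zero] at h2
    exact h2.congr fun ε => by ring
  have hz0 : ∀ c, 2 * X.dim < c → r [] c = 0 := by
    intro c hc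
    have h1 := hlim [] c
    have h2 : PP (ZZ X.betti X.frob) (fun i => TE (f i)) ([] : List ι) c = fun _ => 0 := by
      funext p
      have h3 := ZZ_le X.betti X.frob c p
      rw [hb0 c hc] at h3
      exact abs_nonpos_iff.1 h3
    rw [h2] at h1
    simp only [E_zero, zero_div] at h1
    exact_mod_cast tendsto_nhds_unique h1 tendsto_const_nhds
  obtain ⟨𝒥, hJ1, hJ2⟩ := hfam.subfamily (τ := fun _ => tZ) (ZZ_le X.betti X.frob) hlim
    (d₀ := 2 * X.dim) (d := 2) hb0 (fun c hc => by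
      unfold bE
      rw [Nat.choose_eq_zero_of_lt hc]
      simp) (z := r []) hz0 (fun _ c hc => by
      unfold tZ
      rw [if_neg (by omega)]) (fun c => rfl)
  refine ⟨𝒥, hJ1, fun k l h1 h2 n => ?_⟩
  rw [hJ2 k l h1 h2 n, QQ_tZ, List.length_ofFn]

/-- **General families, an infinite subfamily.** -/
theorem gen_sub [Infinite ι] {Y : ι → Variety} {N : ℕ → ℕ} {τ : ι → ℕ → ℤ}
    (h : IsPairFamily Y N M τ) (X : Variety)
    {B : List ι → ℕ → Nat.Primes → ℂ[X]} (hB : IsSystem X Y B)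
    {r : List ι → ℕ → ℤ} (hr : ∀ l n, HasOrder n (B l n) (-(r l n))) :
    ∃ 𝒥 : Set ι, 𝒥.Infinite ∧ ∀ (k : ℕ) (l : Fin k → ι), Function.Injective l →
      (∀ i, l i ∈ 𝒥) → ∀ n, r (List.ofFn l) n = QQ (r []) τ (List.ofFn l) n := by
  classical
  choose B₁ h₁ hτ using h.single
  obtain ⟨R, hsymm, hM, hpair⟩ := h.pair
  have hex : ∀ e e' c, ∃ B : Nat.Primes → ℂ[X], ¬ R e e' →
      IsEuler (2 * c) (fun p => tens ((Y e).frob p c) ((Y e').frob p c)) B ∧
      HasOrder (2 * c) B (-(τ e c * τ e' c)) := by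
    intro e e' c
    by_cases hR : R e e'
    · exact ⟨fun _ => 0, fun h' => absurd hR h'⟩
    · obtain ⟨B, hB⟩ := hpair e e' hR c
      exact ⟨B, fun _ => hB⟩
  choose B₂ hB₂ using hex
  have hfam := gen_fam h.betti_le hsymm hM h₁ hτ (B₂ := B₂)
    (fun e e' c hR => (hB₂ e e' c hR).1) (fun e e' c hR => (hB₂ e e' c hR).2)
  obtain ⟨d, hd⟩ := h.bounded
  have hb0 : ∀ c, 2 * X.dim < c → ((X.betti c : ℕ) : ℝ) = 0 := fun c hc => by
    rw [X.betti_zero hc]
    simp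
  have hlim : ∀ l n, Tendsto (fun ε => E ε (PP (ZZ X.betti X.frob)
      (TG N fun e => (Y e).frob) l n) / lam ε) (𝓝[>] 0) (𝓝 (r l n : ℝ)) := by
    intro l n
    have h1 := size_sub (fun p => PP_le hfam.bd (ZZ_le X.betti X.frob) l n p)
      (link_prod X.VG (γ := fun e p => (Y e).frob p)
        (fun e => ((Y e).GG (h.betti_le e)).mono fun p hp => hp.1)
        (fun e => ((Y e).GG (h.betti_le e)).mono fun p hp c => TG_eq hp c) hfam.bd l (hB l n))
    have h2 := (size_order (hr l n)).sub h1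
    rw [sub_zero] at h2
    exact h2.congr fun ε => by ring
  have hz0 : ∀ c, 2 * X.dim < c → r [] c = 0 := by
    intro c hc
    have h1 := hlim [] c
    have h2 : PP (ZZ X.betti X.frob) (TG N fun e => (Y e).frob) ([] : List ι) c =
        fun _ => 0 := by
      funext p
      have h3 := ZZ_le X.betti X.frob c p
      rw [hb0 c hc] at h3
      exact abs_nonpos_iff.1 h3
    rw [h2] at h1
    simp only [E_zero, zero_div] at h1
    exact_mod_cast tendsto_nhds_unique h1 tendsto_const_nhds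
  have hτ0 : ∀ e c, d < c → τ e c = 0 := by
    intro e c hc
    have h1 := hfam.tb e c
    rw [hd c hc] at h1
    simp at h1
    exact h1
  obtain ⟨𝒥, hJ1, hJ2⟩ := hfam.subfamily (ZZ_le X.betti X.frob) hlim
    (d₀ := 2 * X.dim) (d := d) hb0 (fun c hc => by rw [hd c hc]; simp) (z := r []) hz0 hτ0
    (fun c => rfl)
  exact ⟨𝒥, hJ1, hJ2⟩

theorem pair_fam {Y : ι → Variety} {N : ℕ → ℕ} {τ : ι → ℕ → ℤ} (h : IsPairFamily Y N M τ) :
    ∃ (R : ι → ι → Prop) (B₁ : ι → ℕ → Nat.Primes → ℂ[X]) (B₂ : ι → ι → ℕ → Nat.Primes → ℂ[X]),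
    (∀ e e', R e e' → R e' e) ∧ (∀ (e : ι) (S : Finset ι), (∀ e' ∈ S, R e e') → S.card ≤ M) ∧
    (∀ e c, IsEuler c (fun p => (Y e).frob p c) (B₁ e c)) ∧
    (∀ e c, HasOrder c (B₁ e c) (-(τ e c))) ∧
    (∀ e e' c, ¬ R e e' →
      IsEuler (2 * c) (fun p => tens ((Y e).frob p c) ((Y e').frob p c)) (B₂ e e' c)) ∧
    ∀ e e' c, ¬ R e e' → HasOrder (2 * c) (B₂ e e' c) (-(τ e c * τ e' c)) := by
  classical
  choose B₁ h₁ hτ using h.single
  obtain ⟨R, hsymm, hM, hpair⟩ := h.pair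
  have hex : ∀ e e' c, ∃ B : Nat.Primes → ℂ[X], ¬ R e e' →
      IsEuler (2 * c) (fun p => tens ((Y e).frob p c) ((Y e').frob p c)) B ∧
      HasOrder (2 * c) B (-(τ e c * τ e' c)) := by
    intro e e' c
    by_cases hR : R e e'
    · exact ⟨fun _ => 0, fun h' => absurd hR h'⟩
    · obtain ⟨B, hB⟩ := hpair e e' hR c
      exact ⟨B, fun _ => hB⟩
  choose B₂ hB₂ using hex
  exact ⟨R, B₁, B₂, hsymm, hM, h₁, hτ, fun e e' c hR => (hB₂ e e' c hR).1,
    fun e e' c hR => (hB₂ e e' c hR).2⟩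

end

end Pool.Agent.Y149.PK
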