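import Pool.Agent.Y149.PK.Size

/-! From the `L`-functions of the products to the functions on the primes. -/

set_option autoImplicit false

open Finset Filter Topology Complex Polynomial

namespace Pool.Agent.Y149.PK

open Pool.Agent.H341R2 (E lam lam_tendsto)
open Pool.Agent.Y149.CM (LFun kunneth nt nt_kunneth card_kunneth mem_kunneth)

/-- the local conditions at a good prime -/
structure VG (N : ℕ → ℕ) (p : Nat.Primes) (γ : ℕ → Multiset ℂ) : Prop where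
  weight : ∀ a, ∀ z ∈ γ a, ‖z‖ = Real.sqrt (p : ℕ) ^ a
  card : ∀ a, Multiset.card (γ a) ≤ N a

theorem bnd_cast (N0 N : ℕ → ℕ) (k n : ℕ) :
    bnd (fun a => (N0 a : ℝ)) (fun a => (N a : ℝ)) k n = (dimY N0 N k n : ℝ) := by
  induction k generalizing n with
  | zero => rfl
  | succ k ih =>
    rw [bnd, dimY]
    push_cast
    exact Finset.sum_congr rfl fun x _ => by rw [ih]

section
variable {ι : Type} {β : ℕ → Multiset ℂ} {γ : ι → ℕ → Multiset ℂ} {N0 N : ℕ → ℕ}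

theorem frobProd_VG {p : Nat.Primes} (hβ : VG N0 p β) (l : List ι) (hγ : ∀ e ∈ l, VG N p (γ e))
    (n : ℕ) : (∀ z ∈ frobProd β γ l n, ‖z‖ = Real.sqrt (p : ℕ) ^ n) ∧
    Multiset.card (frobProd β γ l n) ≤ dimY N0 N l.length n := by
  induction l generalizing n with
  | nil => exact ⟨hβ.weight n, hβ.card n⟩
  | cons e l ih =>
    have he := hγ e (by simp)
    have ih' := ih fun f hf => hγ f (by simp [hf])
    refine ⟨fun z hz => ?_, ?_⟩
    · obtain ⟨i, j, x, y, hij, hx, hy, rfl⟩ := mem_kunneth hz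
      rw [norm_mul, (ih' i).1 x hx, he.weight j y hy, ← pow_add, hij]
    · rw [frobProd, card_kunneth, List.length_cons, dimY]
      exact Finset.sum_le_sum fun x _ => Nat.mul_le_mul (ih' x.1).2 (he.card x.2)

theorem nt_frobProd_re {p : Nat.Primes} {Z : ℕ → Nat.Primes → ℝ} {T : ι → ℕ → Nat.Primes → ℝ}
    (hZ : ∀ n, (nt p β n).re = Z n p) (l : List ι)
    (hT : ∀ e ∈ l, ∀ c, nt p (γ e) c = ((T e c p : ℝ) : ℂ)) (n : ℕ) :
    (nt p (frobProd β γ l) n).re = PP Z T l n p := by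
  induction l generalizing n with
  | nil => exact hZ n
  | cons e l ih =>
    have ih' := ih fun f hf => hT f (by simp [hf])
    rw [frobProd, nt_kunneth, Complex.re_sum, PP]
    refine Finset.sum_congr rfl fun x _ => ?_
    rw [hT e (by simp), Complex.re_mul_ofReal, ih']

end

theorem sqrt_pow_pos (p : Nat.Primes) (n : ℕ) : 0 < Real.sqrt (p : ℕ) ^ n :=
  pow_pos (Real.sqrt_pos.2 (by exact_mod_cast p.2.pos)) n

theorem norm_nt_le {N : ℕ → ℕ} {p : Nat.Primes} {γ : ℕ → Multiset ℂ} (h : VG N p γ) (n : ℕ) :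
    ‖nt p γ n‖ ≤ N n :=
  Pool.Agent.Y149.CM.nt_le p (N n) n (h.weight n) (h.card n)

/-- the real part of the normalised trace at the good primes -/
noncomputable def ZZ (N0 : ℕ → ℕ) (β : Nat.Primes → ℕ → Multiset ℂ) (n : ℕ) (p : Nat.Primes) : ℝ :=
  open Classical in if VG N0 p (β p) then (nt p (β p) n).re else 0

theorem ZZ_le (N0 : ℕ → ℕ) (β : Nat.Primes → ℕ → Multiset ℂ) (n : ℕ) (p : Nat.Primes) :
    |ZZ N0 β n p| ≤ (N0 n : ℝ) := by
  unfold ZZ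
  split_ifs with h
  · exact (Complex.abs_re_le_norm _).trans (norm_nt_le h n)
  · simp

theorem ZZ_eq {N0 : ℕ → ℕ} {β : Nat.Primes → ℕ → Multiset ℂ} {p : Nat.Primes}
    (h : VG N0 p (β p)) (n : ℕ) : (nt p (β p) n).re = ZZ N0 β n p := by
  unfold ZZ
  rw [if_pos h]

section
variable {ι : Type} {β : Nat.Primes → ℕ → Multiset ℂ} {γ : ι → Nat.Primes → ℕ → Multiset ℂ}
  {N0 N : ℕ → ℕ} {T : ι → ℕ → Nat.Primes → ℝ}

/-- the `L`-function of the fixed variety -/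
theorem link_base (hβ : ∀ᶠ p in cofinite, VG N0 p (β p)) {c : ℕ} {B : Nat.Primes → ℂ[X]}
    (hB : IsEuler c (fun p => β p c) B) : ∃ C : ℝ, ∀ᶠ ε : ℝ in 𝓝[>] 0,
      LFun B ((c : ℂ) / 2 + 1 + ε) ≠ 0 ∧
      |Real.log ‖LFun B ((c : ℂ) / 2 + 1 + ε)‖ - E ε (ZZ N0 β c)| ≤ C :=
  log_gen hB (Mb := N0 c) (hβ.mono fun p h => ⟨h.weight c, h.card c⟩) (ZZ_le N0 β c)
    (hβ.mono fun p h => by rw [← ZZ_eq h c]; rfl)

/-- the `L`-function of the product -/
theorem link_prod (hβ : ∀ᶠ p in cofinite, VG N0 p (β p))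
    (hγ : ∀ e, ∀ᶠ p in cofinite, VG N p (γ e p))
    (hT : ∀ e, ∀ᶠ p : Nat.Primes in cofinite, ∀ c, nt p (γ e p) c = ((T e c p : ℝ) : ℂ))
    (hTb : ∀ e c p, |T e c p| ≤ (N c : ℝ)) (l : List ι) {n : ℕ} {B : Nat.Primes → ℂ[X]}
    (hB : IsEuler n (fun p => frobProd (β p) (fun e => γ e p) l n) B) :
    ∃ C : ℝ, ∀ᶠ ε : ℝ in 𝓝[>] 0, LFun B ((n : ℂ) / 2 + 1 + ε) ≠ 0 ∧
      |Real.log ‖LFun B ((n : ℂ) / 2 + 1 + ε)‖ - E ε (PP (ZZ N0 β) T l n)| ≤ C := by
  classical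
  have h1 : ∀ᶠ p in cofinite, ∀ e ∈ l, VG N p (γ e p) := by
    have h2 : ∀ᶠ p in cofinite, ∀ e ∈ l.toFinset, VG N p (γ e p) := by
      rw [Filter.eventually_all_finset]
      exact fun e _ => hγ e
    exact h2.mono fun p h e he => h e (List.mem_toFinset.2 he)
  have h1' : ∀ᶠ p : Nat.Primes in cofinite, ∀ e ∈ l, ∀ c,
      nt p (γ e p) c = ((T e c p : ℝ) : ℂ) := by
    have h2 : ∀ᶠ p : Nat.Primes in cofinite, ∀ e ∈ l.toFinset, ∀ c,
        nt p (γ e p) c = ((T e c p : ℝ) : ℂ) := by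
      rw [Filter.eventually_all_finset]
      exact fun e _ => hT e
    exact h2.mono fun p h e he => h e (List.mem_toFinset.2 he)
  refine log_gen hB (Mb := dimY N0 N l.length n) (C0 := dimY N0 N l.length n) ?_ ?_ ?_
  · filter_upwards [hβ, h1] with p g1 g2
    exact frobProd_VG g1 l g2 n
  · intro p
    rw [← bnd_cast]
    exact PP_le hTb (ZZ_le N0 β) l n p
  · filter_upwards [hβ, h1'] with p g1 g2
    exact (nt_frobProd_re (ZZ_eq g1) l g2 n).symm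

end

/-! ### Perturbation -/

theorem QQ_tendsto {ι : Type} {z z' : ℕ → ℝ → ℝ} (τ : ι → ℕ → ℝ) (l : List ι) (n : ℕ)
    (h : ∀ c, c ≤ n → Tendsto (fun ε => z c ε - z' c ε) (𝓝[>] 0) (𝓝 0)) :
    Tendsto (fun ε => QQ (fun c => z c ε) τ l n - QQ (fun c => z' c ε) τ l n) (𝓝[>] 0) (𝓝 0) := by
  induction l generalizing n with
  | nil => exact h n le_rfl
  | cons e l ih =>
    have h1 : (fun ε => QQ (fun c => z c ε) τ (e :: l) n - QQ (fun c => z' c ε) τ (e :: l) n) =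
        fun ε => ∑ x ∈ HasAntidiagonal.antidiagonal n,
          (QQ (fun c => z c ε) τ l x.1 - QQ (fun c => z' c ε) τ l x.1) * τ e x.2 := by
      funext ε
      rw [QQ, QQ, ← Finset.sum_sub_distrib]
      exact Finset.sum_congr rfl fun x _ => by ring
    rw [h1]
    have h3 : Tendsto (fun ε => ∑ x ∈ HasAntidiagonal.antidiagonal n,
          (QQ (fun c => z c ε) τ l x.1 - QQ (fun c => z' c ε) τ l x.1) * τ e x.2) (𝓝[>] 0)
          (𝓝 (∑ x ∈ HasAntidiagonal.antidiagonal n, 0 * τ e x.2)) := by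
      refine tendsto_finsetSum _ fun x hx => ?_
      refine (ih x.1 fun c hc => h c ?_).mul_const _
      have := mem_antidiagonal.1 hx
      omega
    have h2 : ∑ x ∈ HasAntidiagonal.antidiagonal n, 0 * τ e x.2 = 0 := by simp
    rwa [h2] at h3

theorem QQ_lim {ι : Type} {z : ℕ → ℝ → ℝ} {z' : ℕ → ℝ} (τ : ι → ℕ → ℝ) (l : List ι) (n : ℕ)
    (h : ∀ c, c ≤ n → Tendsto (z c) (𝓝[>] 0) (𝓝 (z' c))) :
    Tendsto (fun ε => QQ (fun c => z c ε) τ l n) (𝓝[>] 0) (𝓝 (QQ z' τ l n)) := by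
  have h1 := QQ_tendsto (z := z) (z' := fun c _ => z' c) τ l n fun c hc => by
    have := (h c hc).sub_const (z' c)
    rwa [sub_self] at this
  have h2 := h1.add_const (QQ z' τ l n)
  rw [zero_add] at h2
  exact h2.congr fun ε => by ring

/-- sums of squares are stable under small perturbations -/
theorem sq_perturb {α : Type} (S : Finset α) (x y : α → ℝ → ℝ) (K : ℝ) (hK : 0 ≤ K)
    (h : ∀ η : ℝ, 0 < η → ∀ᶠ ε : ℝ in 𝓝[>] 0, ∑ l ∈ S, x l ε ^ 2 ≤ K + η)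
    (hy : ∀ l ∈ S, Tendsto (fun ε => y l ε - x l ε) (𝓝[>] 0) (𝓝 0)) {η : ℝ} (hη : 0 < η) :
    ∀ᶠ ε : ℝ in 𝓝[>] 0, ∑ l ∈ S, y l ε ^ 2 ≤ K + η := by
  set G : ℝ := 2 * Real.sqrt (K + 1) + 1 with hG
  have hG0 : 0 ≤ Real.sqrt (K + 1) := Real.sqrt_nonneg _
  set δ : ℝ := min 1 (η / (2 * G)) with hδ
  have hδ0 : 0 < δ := lt_min one_pos (by positivity)
  have hδ1 : δ ≤ 1 := min_le_left _ _
  have hδ2 : δ * (2 * G) ≤ η := by
    have h1 : δ ≤ η / (2 * G) := min_le_right _ _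
    rwa [le_div_iff₀ (by positivity)] at h1
  have h1 : Tendsto (fun ε => ∑ l ∈ S, (y l ε - x l ε) ^ 2) (𝓝[>] 0) (𝓝 0) := by
    have h3 : Tendsto (fun ε => ∑ l ∈ S, (y l ε - x l ε) ^ 2) (𝓝[>] 0)
        (𝓝 (∑ _l ∈ S, (0 : ℝ) ^ 2)) := tendsto_finsetSum _ fun l hl => (hy l hl).pow 2
    have h2 : ∑ _l ∈ S, (0 : ℝ) ^ 2 = 0 := by simp
    rwa [h2] at h3
  filter_upwards [h (min 1 (η / 2)) (lt_min one_pos (by positivity)),
    h1.eventually_lt_const (show (0 : ℝ) < δ ^ 2 by positivity)] with ε g1 g2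
  have g3 : nrm S (fun l => x l ε) ^ 2 ≤ K + min 1 (η / 2) := by rw [nrm_sq]; exact g1
  have g4 : nrm S (fun l => y l ε - x l ε) ≤ δ := nrm_le hδ0.le g2.le
  have g5 : nrm S (fun l => x l ε) ≤ Real.sqrt (K + 1) := by
    refine Real.le_sqrt_of_sq_le (g3.trans ?_)
    linarith [min_le_left (1 : ℝ) (η / 2)]
  have g6 := nrm_add S (fun l => x l ε) (fun l => y l ε - x l ε)
  have g7 : nrm S (fun l => x l ε + (y l ε - x l ε)) ^ 2 = ∑ l ∈ S, y l ε ^ 2 := by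
    rw [nrm_sq]
    exact Finset.sum_congr rfl fun l _ => by ring
  rw [← g7]
  have g8 := nrm_nonneg S (fun l => x l ε)
  have g9 : nrm S (fun l => x l ε + (y l ε - x l ε)) ^ 2 ≤ (nrm S (fun l => x l ε) + δ) ^ 2 :=
    pow_le_pow_left₀ (nrm_nonneg _ _) (g6.trans (add_le_add_right g4 _)) 2
  refine g9.trans ?_
  have g10 := min_le_right (1 : ℝ) (η / 2)
  nlinarith

end Pool.Agent.Y149.PK
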