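import Pool.Agent.Y149.PK.Ell

/-! The main theorems. -/

set_option autoImplicit false

open Finset Filter Topology Complex Polynomial ComplexConjugate

namespace Pool.Agent.Y149.PK

open Pool.Agent.H341R2 (E lam lam_tendsto lam_bounded)
open Pool.Agent.Y149.CM (LFun kunneth nt IsFrobenius sum_product)
open Pool.Agent.Y722.EP (IsModular IsNewformOf NotIsogenous points)
open Pool.Agent.Y722.RS (S2)

theorem frobenius_VG {n D : ℕ} {X : Set (MvPolynomial (Fin n) ℤ)} {p : Nat.Primes}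
    {γ : ℕ → Multiset ℂ} {N : ℕ → ℕ} (h1 : IsFrobenius X D p γ)
    (h2 : ∀ a, Multiset.card (γ a) ≤ N a) : VG N p γ := by
  have hp0 : (0 : ℝ) < (p : ℕ) := by exact_mod_cast p.2.pos
  refine ⟨fun a z hz => ?_, h2⟩
  rw [h1.weight a z hz, Real.sqrt_eq_rpow, ← Real.rpow_natCast, ← Real.rpow_mul hp0.le]
  congr 1
  ring

section
variable {ι : Type} {R : ι → ι → Prop} {M : ℕ} {T : ι → ℕ → Nat.Primes → ℝ} {τ : ι → ℕ → ℝ}
  {N N0 : ℕ → ℕ} {t v : ℕ → ℝ} {β : Nat.Primes → ℕ → Multiset ℂ}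
  {γ : ι → Nat.Primes → ℕ → Multiset ℂ}

/-- **The mean square, in terms of the `L`-functions.** -/
theorem main_gen (h : Fam R M T τ (fun c => (N c : ℝ)) t v)
    (hβ : ∀ᶠ p in cofinite, VG N0 p (β p))
    (hγ : ∀ e, ∀ᶠ p in cofinite, VG N p (γ e p))
    (hT : ∀ e, ∀ᶠ p : Nat.Primes in cofinite, ∀ c, nt p (γ e p) c = ((T e c p : ℝ) : ℂ))
    {k n : ℕ} {B : (Fin k → ι) → Nat.Primes → ℂ[X]}
    (hB : ∀ l, IsEuler n (fun p => frobProd (β p) (fun e => γ e p) (List.ofFn l) n) (B l))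
    {z : ℕ → ℝ → ℝ} (hz : ∀ c, c ≤ n → Tendsto (fun ε => z c ε - E ε (ZZ N0 β c) / lam ε)
      (𝓝[>] 0) (𝓝 0)) (J : Finset ι) {η : ℝ} (hη : 0 < η) :
    ∀ᶠ ε : ℝ in 𝓝[>] 0, (∀ l ∈ tuples J k, LFun (B l) ((n : ℂ) / 2 + 1 + ε) ≠ 0) ∧
      ∑ l ∈ tuples J k, (size n (B l) ε - QQ (fun c => z c ε) τ (List.ofFn l) n) ^ 2 ≤
        KK (fun a => (N0 a : ℝ)) (fun c => (N c : ℝ)) t v (Real.sqrt (2 * M)) k n ^ 2 *
          (J.card : ℝ) ^ (k - 1) + η := by
  have hlink := fun l => link_prod hβ hγ hT h.bd (List.ofFn l) (hB l)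
  have h1 : ∀ᶠ ε : ℝ in 𝓝[>] 0, ∀ l ∈ tuples J k, LFun (B l) ((n : ℂ) / 2 + 1 + ε) ≠ 0 := by
    rw [Filter.eventually_all_finset]
    intro l _
    obtain ⟨C, hC⟩ := hlink l
    exact hC.mono fun ε h2 => h2.1
  refine h1.and (sq_perturb (tuples J k)
    (fun l ε => dd (ZZ N0 β) T τ ε (List.ofFn l) n)
    (fun l ε => size n (B l) ε - QQ (fun c => z c ε) τ (List.ofFn l) n) _ (by positivity)
    (fun η' hη' => h.mean_sq (ZZ_le N0 β) J k n hη') (fun l _ => ?_) hη)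
  have h2 : Tendsto (fun ε : ℝ => size n (B l) ε - E ε (PP (ZZ N0 β) T (List.ofFn l) n) / lam ε)
      (𝓝[>] 0) (𝓝 0) :=
    size_sub (fun p => PP_le h.bd (ZZ_le N0 β) (List.ofFn l) n p) (hlink l)
  have h3 := QQ_tendsto (z := z) (z' := fun c ε => E ε (ZZ N0 β c) / lam ε) τ (List.ofFn l) n hz
  have h4 := h2.sub h3
  rw [sub_zero] at h4
  refine h4.congr fun ε => ?_
  unfold dd
  ring

/-- **The orders.** -/
theorem main_order (h : Fam R M T τ (fun c => (N c : ℝ)) t v)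
    (hβ : ∀ᶠ p in cofinite, VG N0 p (β p))
    (hγ : ∀ e, ∀ᶠ p in cofinite, VG N p (γ e p))
    (hT : ∀ e, ∀ᶠ p : Nat.Primes in cofinite, ∀ c, nt p (γ e p) c = ((T e c p : ℝ) : ℂ))
    {k n : ℕ} {B : (Fin k → ι) → Nat.Primes → ℂ[X]}
    (hB : ∀ l, IsEuler n (fun p => frobProd (β p) (fun e => γ e p) (List.ofFn l) n) (B l))
    {z : ℕ → ℝ → ℝ} (hz : ∀ c, c ≤ n → Tendsto (fun ε => z c ε - E ε (ZZ N0 β c) / lam ε)
      (𝓝[>] 0) (𝓝 0)) {q : (Fin k → ι) → ℝ}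
    (hq : ∀ l ε, QQ (fun c => z c ε) τ (List.ofFn l) n = q l)
    (J : Finset ι) (S : Finset (Fin k → ι)) (r : (Fin k → ι) → ℤ)
    (hS : ∀ l ∈ S, (∀ i, l i ∈ J) ∧ HasOrder n (B l) (-(r l))) :
    ∑ l ∈ S, ((r l : ℝ) - q l) ^ 2 ≤
        KK (fun a => (N0 a : ℝ)) (fun c => (N c : ℝ)) t v (Real.sqrt (2 * M)) k n ^ 2 *
          (J.card : ℝ) ^ (k - 1) := by
  classical
  refine le_of_forall_pos_le_add fun η hη => ?_
  have h1 := main_gen h hβ hγ hT hB hz J hη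
  have hsub : S ⊆ tuples J k := fun l hl => Fintype.mem_piFinset.2 (hS l hl).1
  have h2 : Tendsto (fun ε : ℝ => ∑ l ∈ S, (size n (B l) ε - q l) ^ 2)
      (𝓝[>] 0) (𝓝 (∑ l ∈ S, ((r l : ℝ) - q l) ^ 2)) :=
    tendsto_finsetSum _ fun l hl => ((size_order (hS l hl).2).sub_const _).pow 2
  refine le_of_tendsto h2 ?_
  filter_upwards [h1] with ε h3
  simp only [hq] at h3
  exact (Finset.sum_le_sum_of_subset_of_nonneg hsub fun _ _ _ => sq_nonneg _).trans h3.2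

end

/-! ### General families -/

section
variable {ι : Type} {N : ℕ → ℕ} {γ : ι → Nat.Primes → ℕ → Multiset ℂ}

/-- the good primes of a member -/
def GG (N : ℕ → ℕ) (p : Nat.Primes) (γ : ℕ → Multiset ℂ) : Prop :=
  VG N p γ ∧ ∀ c, (γ c).map conj = γ c

/-- the normalised traces of a member -/
noncomputable def TG (N : ℕ → ℕ) (γ : ι → Nat.Primes → ℕ → Multiset ℂ) (e : ι) (c : ℕ)
    (p : Nat.Primes) : ℝ :=
  open Classical in if GG N p (γ e p) then (nt p (γ e p) c).re else 0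

theorem TG_le (e : ι) (c : ℕ) (p : Nat.Primes) : |TG N γ e c p| ≤ (N c : ℝ) := by
  unfold TG
  split_ifs with h
  · exact (Complex.abs_re_le_norm _).trans (norm_nt_le h.1 c)
  · simp

theorem TG_eq {e : ι} {p : Nat.Primes} (h : GG N p (γ e p)) (c : ℕ) :
    nt p (γ e p) c = ((TG N γ e c p : ℝ) : ℂ) := by
  unfold TG
  rw [if_pos h]
  have h1 : conj (nt p (γ e p) c) = nt p (γ e p) c := by
    unfold nt
    rw [map_div₀, map_pow, Complex.conj_ofReal, map_multiset_sum, h.2 c]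
  exact (Complex.conj_eq_iff_re.1 h1).symm

theorem tens_local {p : Nat.Primes} {s t : ℕ → Multiset ℂ} (hs : VG N p s) (ht : VG N p t)
    (c : ℕ) : (∀ z ∈ tens (s c) (t c), ‖z‖ = Real.sqrt (p : ℕ) ^ (2 * c)) ∧
      Multiset.card (tens (s c) (t c)) ≤ N c * N c := by
  refine ⟨fun z hz => ?_, ?_⟩
  · unfold tens at hz
    rw [Multiset.mem_map] at hz
    obtain ⟨w, hw, rfl⟩ := hz
    rw [Multiset.mem_product] at hw
    rw [norm_mul, hs.weight c _ hw.1, ht.weight c _ hw.2, ← pow_add]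
    congr 1
    ring
  · unfold tens
    rw [Multiset.card_map, Multiset.card_product]
    exact Nat.mul_le_mul (hs.card c) (ht.card c)

theorem tens_sum {p : Nat.Primes} (s t : ℕ → Multiset ℂ) (c : ℕ) :
    (tens (s c) (t c)).sum / ((Real.sqrt (p : ℕ) : ℝ) : ℂ) ^ (2 * c) = nt p s c * nt p t c := by
  unfold tens nt
  rw [sum_product, div_mul_div_comm, ← pow_add]
  congr 2
  ring

/-- the orders for one and two members give an almost orthogonal family -/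
theorem fam_gen {R : ι → ι → Prop} {M : ℕ} (hsymm : ∀ e e', R e e' → R e' e)
    (hM : ∀ (e : ι) (S : Finset ι), (∀ e' ∈ S, R e e') → S.card ≤ M)
    (hγ : ∀ e, ∀ᶠ p in cofinite, GG N p (γ e p))
    {B₁ : ι → ℕ → Nat.Primes → ℂ[X]} (h₁ : ∀ e c, IsEuler c (fun p => γ e p c) (B₁ e c))
    {τ : ι → ℕ → ℤ} (hτ : ∀ e c, HasOrder c (B₁ e c) (-(τ e c)))
    {B₂ : ι → ι → ℕ → Nat.Primes → ℂ[X]}
    (h₂ : ∀ e e' c, ¬ R e e' → IsEuler (2 * c) (fun p => tens (γ e p c) (γ e' p c)) (B₂ e e' c))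
    (hτ₂ : ∀ e e' c, ¬ R e e' → HasOrder (2 * c) (B₂ e e' c) (-(τ e c * τ e' c))) :
    Fam R M (TG N γ) (fun e c => (τ e c : ℝ)) (fun c => (N c : ℝ)) (fun c => (N c : ℝ))
      (fun c => (N c : ℝ)) := by
  have hone : ∀ e c, ∃ C : ℝ, ∀ᶠ ε : ℝ in 𝓝[>] 0, |E ε (TG N γ e c) - τ e c * lam ε| ≤ C := by
    intro e c
    refine E_of_order (log_gen (h₁ e c) (Mb := N c) ?_ (TG_le e c) ?_) (hτ e c)
    · exact (hγ e).mono fun p hp => ⟨hp.1.weight c, hp.1.card c⟩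
    · refine (hγ e).mono fun p hp => ?_
      have h3 := TG_eq hp c
      unfold nt at h3
      rw [h3, Complex.ofReal_re]
  have htwo : ∀ e e' c, ¬ R e e' → ∃ C : ℝ, ∀ᶠ ε : ℝ in 𝓝[>] 0,
      |E ε (fun p => TG N γ e c p * TG N γ e' c p) - (τ e c * τ e' c : ℤ) * lam ε| ≤ C := by
    intro e e' c hR
    refine E_of_order (log_gen (h₂ e e' c hR) (Mb := N c * N c) (C0 := N c * N c) ?_
      (fun p => ?_) ?_) (hτ₂ e e' c hR)
    · filter_upwards [hγ e, hγ e'] with p hp hp'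
      exact tens_local hp.1 hp'.1 c
    · rw [abs_mul]
      exact mul_le_mul (TG_le e c p) (TG_le e' c p) (abs_nonneg _) (Nat.cast_nonneg _)
    · filter_upwards [hγ e, hγ e'] with p hp hp'
      rw [tens_sum, TG_eq hp, TG_eq hp', ← Complex.ofReal_mul, Complex.ofReal_re]
  refine ⟨TG_le, fun e c => ?_, fun c => Nat.cast_nonneg _, fun e c => ?_, fun e e' c hR => ?_,
    hsymm, hM⟩
  · obtain ⟨C, hC⟩ := hone e c
    have h1 : Tendsto (fun ε : ℝ => (N c : ℝ) + C / lam ε) (𝓝[>] 0) (𝓝 ((N c : ℝ) + 0)) :=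
      (lam_tendsto.const_div_atTop C).const_add _
    rw [add_zero] at h1
    refine ge_of_tendsto h1 ?_
    filter_upwards [hC, lam_pos, self_mem_nhdsWithin] with ε g1 g2 g3
    have hε : (0 : ℝ) < ε := g3
    have g4 := abs_E_le hε (TG_le (N := N) (γ := γ) e c)
    have e1 : (N c : ℝ) + C / lam ε = (N c * lam ε + C) / lam ε := by
      field_simp
    rw [e1, le_div_iff₀ g2]
    have e2 : |(τ e c : ℝ)| * lam ε = |(τ e c : ℝ) * lam ε| := by
      rw [abs_mul, abs_of_pos g2]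
    rw [e2]
    rw [abs_le] at *
    constructor <;> linarith [g1.1, g1.2, g4.1, g4.2]
  · obtain ⟨C, hC⟩ := hone e c
    refine ⟨2 * |(τ e c : ℝ)| * C, ?_⟩
    filter_upwards [hC, lam_pos, self_mem_nhdsWithin] with ε g1 g2 g3
    have hε : (0 : ℝ) < ε := g3
    have hb := TG_le (N := N) (γ := γ) e c
    have hb2 : ∀ p, |TG N γ e c p ^ 2| ≤ (N c : ℝ) ^ 2 := fun p => by
      rw [abs_pow]
      exact pow_le_pow_left₀ (abs_nonneg _) (hb p) 2
    have hb3 : ∀ p, |(-2 * (τ e c : ℝ)) * TG N γ e c p| ≤ |-2 * (τ e c : ℝ)| * N c := fun p => by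
      rw [abs_mul]
      exact mul_le_mul_of_nonneg_left (hb p) (abs_nonneg _)
    have hb4 : ∀ p : Nat.Primes, |(τ e c : ℝ) ^ 2 * 1| ≤ |(τ e c : ℝ) ^ 2 * 1| := fun _ => le_rfl
    have e1 : (fun p => (TG N γ e c p - τ e c) ^ 2) = fun p =>
        (TG N γ e c p ^ 2 + (-2 * (τ e c : ℝ)) * TG N γ e c p) + (τ e c : ℝ) ^ 2 * 1 := by
      funext p
      ring
    rw [e1, E_add' hε (fun p => (abs_add_le _ _).trans (add_le_add (hb2 p) (hb3 p))) hb4,
      E_add' hε hb2 hb3, E_smul, E_smul, E_one]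
    have g4 := (le_abs_self _).trans (abs_E_le hε hb2)
    have g5 : -2 * (τ e c : ℝ) * E ε (TG N γ e c) ≤
        -2 * (τ e c : ℝ) ^ 2 * lam ε + 2 * |(τ e c : ℝ)| * C := by
      have g6 : -2 * (τ e c : ℝ) * (E ε (TG N γ e c) - τ e c * lam ε) ≤
          2 * |(τ e c : ℝ)| * C := by
        refine (le_abs_self _).trans ?_
        rw [abs_mul, abs_mul]
        have : |(-2 : ℝ)| = 2 := by norm_num
        rw [this]
        exact mul_le_mul_of_nonneg_left g1 (by positivity)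
      linarith
    nlinarith [mul_nonneg (sq_nonneg (τ e c : ℝ)) g2.le]
  · obtain ⟨C, hC⟩ := hone e c
    obtain ⟨C', hC'⟩ := hone e' c
    obtain ⟨C2, hC2⟩ := htwo e e' c hR
    refine ⟨C2 + |(τ e c : ℝ)| * C' + |(τ e' c : ℝ)| * C, ?_⟩
    filter_upwards [hC, hC', hC2, lam_pos, self_mem_nhdsWithin] with ε g1 g1' g12 g2 g3
    have hε : (0 : ℝ) < ε := g3
    have hb := TG_le (N := N) (γ := γ) e c
    have hb' := TG_le (N := N) (γ := γ) e' c
    have hb2 : ∀ p, |TG N γ e c p * TG N γ e' c p| ≤ (N c : ℝ) * N c := fun p => by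
      rw [abs_mul]
      exact mul_le_mul (hb p) (hb' p) (abs_nonneg _) (Nat.cast_nonneg _)
    have hb3 : ∀ p, |(-(τ e c : ℝ)) * TG N γ e' c p| ≤ |-(τ e c : ℝ)| * N c := fun p => by
      rw [abs_mul]
      exact mul_le_mul_of_nonneg_left (hb' p) (abs_nonneg _)
    have hb3' : ∀ p, |(-(τ e' c : ℝ)) * TG N γ e c p| ≤ |-(τ e' c : ℝ)| * N c := fun p => by
      rw [abs_mul]
      exact mul_le_mul_of_nonneg_left (hb p) (abs_nonneg _)
    have hb4 : ∀ p : Nat.Primes, |(τ e c : ℝ) * τ e' c * 1| ≤ |(τ e c : ℝ) * τ e' c * 1| :=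
      fun _ => le_rfl
    have e1 : (fun p => (TG N γ e c p - τ e c) * (TG N γ e' c p - τ e' c)) = fun p =>
        ((TG N γ e c p * TG N γ e' c p + (-(τ e c : ℝ)) * TG N γ e' c p) +
          (-(τ e' c : ℝ)) * TG N γ e c p) + (τ e c : ℝ) * τ e' c * 1 := by
      funext p
      ring
    rw [e1, E_add' hε (fun p => (abs_add_le _ _).trans (add_le_add ((abs_add_le _ _).trans
      (add_le_add (hb2 p) (hb3 p))) (hb3' p))) hb4, E_add' hε (fun p => (abs_add_le _ _).trans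
      (add_le_add (hb2 p) (hb3 p))) hb3', E_add' hε hb2 hb3, E_smul, E_smul, E_smul, E_one]
    push_cast at g12
    have g4 : -(τ e c : ℝ) * (E ε (TG N γ e' c) - τ e' c * lam ε) ≤ |(τ e c : ℝ)| * C' := by
      refine (le_abs_self _).trans ?_
      rw [abs_mul, abs_neg]
      exact mul_le_mul_of_nonneg_left g1' (abs_nonneg _)
    have g5 : -(τ e' c : ℝ) * (E ε (TG N γ e c) - τ e c * lam ε) ≤ |(τ e' c : ℝ)| * C := by
      refine (le_abs_self _).trans ?_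
      rw [abs_mul, abs_neg]
      exact mul_le_mul_of_nonneg_left g1 (abs_nonneg _)
    have g6 := (abs_le.1 g12).2
    linarith

end

end Pool.Agent.Y149.PK
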