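import Pool.Agent.Y149.PK.Tup
import Pool.Agent.Y149.CM.Size

/-! The size of the `L`-functions at the edge in terms of sums over the primes. -/

set_option autoImplicit false

open Finset Filter Topology Complex Polynomial

namespace Pool.Agent.Y149.PK

open Pool.Agent.H341R2 (E K2 lam E_const_mul E_sum E_le E_nonneg lam_tendsto
  lam_bounded w_nonneg tprod_split summable_and_bound norm_neg_log_sub_le
  prime_rpow_le_two)
open Pool.Agent.Y149.CM (LFun norm_msum E_fin local_log)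

/-- **The size lemma.** -/
theorem log_gen {n : ℕ} {δ : Nat.Primes → Multiset ℂ} {B : Nat.Primes → ℂ[X]}
    (hB : IsEuler n δ B) {Mb : ℕ} (hw : ∀ᶠ p : Nat.Primes in cofinite,
      (∀ z ∈ δ p, ‖z‖ = Real.sqrt (p : ℕ) ^ n) ∧ Multiset.card (δ p) ≤ Mb)
    {φ : Nat.Primes → ℝ} {C0 : ℝ} (hφ : ∀ p, |φ p| ≤ C0)
    (he : ∀ᶠ p : Nat.Primes in cofinite,
      φ p = ((δ p).sum / ((Real.sqrt (p : ℕ) : ℝ) : ℂ) ^ n).re) :
    ∃ C : ℝ, ∀ᶠ ε : ℝ in 𝓝[>] 0, LFun B ((n : ℂ) / 2 + 1 + ε) ≠ 0 ∧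
      |Real.log ‖LFun B ((n : ℂ) / 2 + 1 + ε)‖ - E ε φ| ≤ C := by
  classical
  set Good : Nat.Primes → Prop := fun p => ((∀ z ∈ δ p, ‖z‖ = Real.sqrt (p : ℕ) ^ n) ∧
    Multiset.card (δ p) ≤ Mb) ∧ φ p = ((δ p).sum / ((Real.sqrt (p : ℕ) : ℝ) : ℂ) ^ n).re ∧
    ∀ z : ℂ, (B p).eval z = ((δ p).map fun α => 1 - α * z).prod with hGood
  have hev : ∀ᶠ p : Nat.Primes in cofinite, Good p := by
    filter_upwards [hw, he, hB.1] with p h1 h2 h3
    exact ⟨h1, h2, h3⟩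
  have hfin : {p | ¬ Good p}.Finite := eventually_cofinite.1 hev
  -- the bad factors
  have hbad : ∃ C : ℝ, ∀ᶠ ε : ℝ in 𝓝[>] 0, (∀ p ∈ hfin.toFinset,
      ((B p).eval (((p : ℕ) : ℂ) ^ (-((n : ℂ) / 2 + 1 + ε)))) ≠ 0) ∧
      |∑ p ∈ hfin.toFinset,
        Real.log ‖((B p).eval (((p : ℕ) : ℂ) ^ (-((n : ℂ) / 2 + 1 + ε))))⁻¹‖| ≤ C := by
    have hcont : ∀ p : Nat.Primes, Tendsto (fun ε : ℝ =>
        (B p).eval (((p : ℕ) : ℂ) ^ (-((n : ℂ) / 2 + 1 + ε)))) (𝓝[>] 0)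
        (𝓝 ((B p).eval (((p : ℕ) : ℂ) ^ (-((n : ℂ) / 2 + 1))))) := by
      intro p
      have hpc : ((p : ℕ) : ℂ) ≠ 0 := by exact_mod_cast p.2.ne_zero
      have h1 : Continuous fun ε : ℝ => (B p).eval (((p : ℕ) : ℂ) ^ (-((n : ℂ) / 2 + 1 + ε))) := by
        refine (B p).continuous.comp ?_
        refine Continuous.const_cpow (by fun_prop) (Or.inl hpc)
      have h2 := h1.tendsto 0
      simp only [Complex.ofReal_zero, add_zero] at h2
      exact h2.mono_left nhdsWithin_le_nhds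
    have h1 : ∀ᶠ ε : ℝ in 𝓝[>] 0, ∀ p ∈ hfin.toFinset,
        ((B p).eval (((p : ℕ) : ℂ) ^ (-((n : ℂ) / 2 + 1 + ε)))) ≠ 0 := by
      rw [Filter.eventually_all_finset]
      intro p _
      exact (hcont p).eventually_ne (hB.2 p)
    have h2 : Tendsto (fun ε : ℝ => |∑ p ∈ hfin.toFinset,
        Real.log ‖((B p).eval (((p : ℕ) : ℂ) ^ (-((n : ℂ) / 2 + 1 + ε))))⁻¹‖|) (𝓝[>] 0)
        (𝓝 (|∑ p ∈ hfin.toFinset,
        Real.log ‖((B p).eval (((p : ℕ) : ℂ) ^ (-((n : ℂ) / 2 + 1))))⁻¹‖|)) := by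
      refine (tendsto_finsetSum _ fun p _ => ?_).abs
      refine (((hcont p).inv₀ (hB.2 p)).norm).log ?_
      exact norm_ne_zero_iff.2 (inv_ne_zero (hB.2 p))
    obtain ⟨C, hC⟩ := h2.isBoundedUnder_le
    exact ⟨C, h1.and (Filter.eventually_map.1 hC)⟩
  obtain ⟨Cb, hCb⟩ := hbad
  -- the traces
  set aa : Nat.Primes → ℂ := fun p => if Good p then
    (δ p).sum / ((Real.sqrt (p : ℕ) : ℝ) : ℂ) ^ n else 0 with haa
  have hsqpos : ∀ p : Nat.Primes, 0 < Real.sqrt (p : ℕ) ^ n := fun p =>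
    pow_pos (Real.sqrt_pos.2 (by exact_mod_cast p.2.pos)) n
  have hMb : ∀ p, Good p → ‖(δ p).sum / ((Real.sqrt (p : ℕ) : ℝ) : ℂ) ^ n‖ ≤ Mb := by
    intro p hp
    rw [norm_div, norm_pow, Complex.norm_real, Real.norm_of_nonneg (Real.sqrt_nonneg _),
      div_le_iff₀ (hsqpos p)]
    have h3 := norm_msum (δ p) (fun z => z) (Real.sqrt (p : ℕ) ^ n) (fun z hz => (hp.1.1 z hz).le)
    rw [Multiset.map_id'] at h3
    refine h3.trans ?_
    have : (Multiset.card (δ p) : ℝ) ≤ Mb := by exact_mod_cast hp.1.2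
    exact mul_le_mul_of_nonneg_right this (hsqpos p).le
  have haab : ∀ p, ‖aa p‖ ≤ Mb := by
    intro p
    rw [haa]
    simp only
    split_ifs with h
    · exact hMb p h
    · simp
  have hd : {p | (φ p - (aa p).re) ≠ 0}.Finite := by
    refine hfin.subset ?_
    intro p hp
    by_contra h
    apply hp
    have h' : Good p := not_not.1 h
    rw [haa]
    simp only
    rw [if_pos h', h'.2.1, sub_self]
  have hdb : ∀ p, |φ p - (aa p).re| ≤ C0 + Mb := fun p =>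
    (abs_sub _ _).trans (add_le_add (hφ p) ((Complex.abs_re_le_norm _).trans (haab p)))
  have haab' : ∀ p, |(aa p).re| ≤ Mb := fun p => (Complex.abs_re_le_norm _).trans (haab p)
  refine ⟨Cb + |(Mb : ℝ)| * K2 + hd.toFinset.card * (C0 + Mb), ?_⟩
  filter_upwards [hCb, self_mem_nhdsWithin] with ε hb hε'
  have hε : (0 : ℝ) < ε := hε'
  set s : ℂ := (n : ℂ) / 2 + 1 + ε with hs
  have hsre : s.re = n / 2 + 1 + ε := by
    have h2 : ((n : ℂ) / 2) = (((n : ℝ) / 2 : ℝ) : ℂ) := by push_cast; rfl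
    rw [hs, h2, Complex.add_re, Complex.add_re, Complex.ofReal_re, Complex.ofReal_re,
      Complex.one_re]
  set G : Nat.Primes → ℂ := fun p =>
    ((δ p).map fun α => -Complex.log (1 - α * ((p : ℕ) : ℂ) ^ (-s))).sum with hG
  have hloc : ∀ p, Good p → cexp (G p) = ((B p).eval (((p : ℕ) : ℂ) ^ (-s)))⁻¹ ∧
      ‖G p - aa p * ((p : ℝ) ^ (-(1 + ε)) : ℝ)‖ ≤ Mb * (p : ℝ) ^ (-2 : ℝ) := by
    intro p hp
    have hp0 : (0 : ℝ) < (p : ℕ) := by exact_mod_cast p.2.pos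
    have hp1 : (1 : ℝ) ≤ (p : ℕ) := by exact_mod_cast p.2.one_lt.le
    have hpc : ((p : ℕ) : ℂ) ≠ 0 := by exact_mod_cast p.2.ne_zero
    have hx : ‖((p : ℕ) : ℂ) ^ (-s)‖ =
        ((p : ℕ) : ℝ) ^ (-((n : ℝ) / 2)) * ((p : ℕ) : ℝ) ^ (-(1 + ε)) := by
      rw [Complex.norm_natCast_cpow_of_pos p.2.pos, Complex.neg_re, hsre, ← Real.rpow_add hp0]
      congr 1
      ring
    have hsq : Real.sqrt (p : ℕ) ^ n = ((p : ℕ) : ℝ) ^ ((n : ℝ) / 2) := by
      rw [Real.sqrt_eq_rpow, ← Real.rpow_natCast, ← Real.rpow_mul hp0.le]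
      congr 1
      ring
    have hδ : ∀ α ∈ δ p, ‖α * ((p : ℕ) : ℂ) ^ (-s)‖ ≤ ((p : ℕ) : ℝ) ^ (-(1 + ε)) := by
      intro α hα
      rw [norm_mul, hp.1.1 α hα, hx, hsq, ← mul_assoc, ← Real.rpow_add hp0, add_neg_cancel,
        Real.rpow_zero, one_mul]
    obtain ⟨h1, h2⟩ := local_log (δ p) (((p : ℕ) : ℂ) ^ (-s)) _ hδ
      (prime_rpow_le_two (by linarith))
    refine ⟨?_, ?_⟩
    · rw [hG]
      simp only
      rw [h1, hp.2.2]
    · have h3 : aa p * ((p : ℝ) ^ (-(1 + ε)) : ℝ) = (δ p).sum * ((p : ℕ) : ℂ) ^ (-s) := by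
        rw [haa]
        simp only
        rw [if_pos hp, ← Complex.ofReal_pow, hsq, div_mul_eq_mul_div, div_eq_iff]
        · rw [mul_assoc, Complex.ofReal_cpow hp0.le, Complex.ofReal_cpow hp0.le]
          push_cast
          congr 1
          rw [← Complex.cpow_add _ _ hpc]
          congr 1
          rw [hs]; ring
        · rw [Complex.ofReal_ne_zero]
          exact (Real.rpow_pos_of_pos hp0 _).ne'
      rw [h3]
      refine h2.trans ?_
      have h4 : (((p : ℕ) : ℝ) ^ (-(1 + ε))) ^ 2 ≤ ((p : ℕ) : ℝ) ^ (-2 : ℝ) := by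
        rw [← Real.rpow_natCast, ← Real.rpow_mul hp0.le]
        refine Real.rpow_le_rpow_of_exponent_le hp1 ?_
        push_cast
        linarith
      have h5 : (Multiset.card (δ p) : ℝ) ≤ Mb := by
        exact_mod_cast hp.1.2
      exact mul_le_mul h5 h4 (by positivity) (by positivity)
  obtain ⟨hsum, hbd⟩ := summable_and_bound (Good := Good) hε G aa (C := Mb) (K := Mb) haab
    (fun p hp => by rw [haa]; simp only; rw [if_neg hp]) (fun p hp => (hloc p hp).2)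
  have hprod := tprod_split hfin G (fun p => ((B p).eval (((p : ℕ) : ℂ) ^ (-s)))⁻¹) hsum
  have hL : LFun B s = (∏ p ∈ hfin.toFinset, ((B p).eval (((p : ℕ) : ℂ) ^ (-s)))⁻¹) *
      cexp (∑' p, if Good p then G p else 0) := by
    rw [← hprod, LFun]
    refine tprod_congr fun p => ?_
    split_ifs with h
    · rw [(hloc p h).1]
    · rfl
  refine ⟨?_, ?_⟩
  · rw [hL]
    exact mul_ne_zero (Finset.prod_ne_zero_iff.2 fun p hp => inv_ne_zero (hb.1 p hp))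
      (Complex.exp_ne_zero _)
  have hlog : Real.log ‖LFun B s‖ = ∑ p ∈ hfin.toFinset,
        Real.log ‖((B p).eval (((p : ℕ) : ℂ) ^ (-s)))⁻¹‖ +
        (∑' p, if Good p then G p else 0).re := by
    rw [hL, norm_mul, Complex.norm_exp, Real.log_mul, Real.log_exp, norm_prod, Real.log_prod]
    · intro p hp
      exact norm_ne_zero_iff.2 (inv_ne_zero (hb.1 p hp))
    · rw [norm_prod]
      exact Finset.prod_ne_zero_iff.2 fun p hp => norm_ne_zero_iff.2 (inv_ne_zero (hb.1 p hp))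
    · exact (Real.exp_pos _).ne'
  have hsplit : E ε φ = E ε (fun p => (aa p).re) + E ε (fun p => φ p - (aa p).re) := by
    rw [← E_add' hε haab' hdb]
    congr 1
    funext p
    ring
  have h6 := E_fin hdb hd hε
  rw [hlog, hsplit]
  have h7 := hb.2
  rw [abs_le] at *
  constructor <;> linarith [hbd.1, hbd.2, h6.1, h6.2, h7.1, h7.2]

theorem log_inv_tendsto : Tendsto (fun ε : ℝ => Real.log (1 / ε)) (𝓝[>] 0) atTop := by
  have h1 : (fun ε : ℝ => Real.log (1 / ε)) = fun ε => -Real.log ε := by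
    funext ε
    rw [one_div, Real.log_inv]
  rw [h1]
  exact tendsto_neg_atBot_atTop.comp Real.tendsto_log_nhdsGT_zero

/-- the order in terms of the logarithm -/
theorem order_log {n : ℕ} {B : Nat.Primes → ℂ[X]} {r : ℤ} (h : HasOrder n B r) :
    ∃ C : ℝ, ∀ᶠ ε : ℝ in 𝓝[>] 0,
      |Real.log ‖LFun B ((n : ℂ) / 2 + 1 + ε)‖ + r * Real.log (1 / ε)| ≤ C := by
  obtain ⟨a, ha, hlim⟩ := h
  have h1 := (hlim.norm.log (norm_ne_zero_iff.2 ha)).abs
  have h2 := hlim.eventually_ne ha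
  refine ⟨|Real.log ‖a‖| + 1, ?_⟩
  filter_upwards [h1.eventually_lt_const (lt_add_one _), h2, self_mem_nhdsWithin] with ε h3 h4 h5
  have hε : (0 : ℝ) < ε := h5
  have hL : LFun B ((n : ℂ) / 2 + 1 + ε) ≠ 0 := right_ne_zero_of_mul h4
  have hz : (ε : ℂ) ^ (-r) ≠ 0 := left_ne_zero_of_mul h4
  rw [norm_mul, Real.log_mul (norm_ne_zero_iff.2 hz) (norm_ne_zero_iff.2 hL), norm_zpow,
    Complex.norm_real, Real.norm_of_nonneg hε.le, Real.log_zpow] at h3
  rw [one_div, Real.log_inv]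
  refine le_of_eq_of_le ?_ h3.le
  congr 1
  push_cast
  ring

theorem E_of_order {n : ℕ} {B : Nat.Primes → ℂ[X]} {φ : Nat.Primes → ℝ}
    (h : ∃ C : ℝ, ∀ᶠ ε : ℝ in 𝓝[>] 0, LFun B ((n : ℂ) / 2 + 1 + ε) ≠ 0 ∧
      |Real.log ‖LFun B ((n : ℂ) / 2 + 1 + ε)‖ - E ε φ| ≤ C) {r : ℤ} (hr : HasOrder n B (-r)) :
    ∃ C : ℝ, ∀ᶠ ε : ℝ in 𝓝[>] 0, |E ε φ - r * lam ε| ≤ C := by
  obtain ⟨C1, h1⟩ := h
  obtain ⟨C2, h2⟩ := order_log hr
  obtain ⟨C3, h3⟩ := lam_bounded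
  refine ⟨C1 + C2 + |(r : ℝ)| * C3, ?_⟩
  filter_upwards [h1, h2, h3] with ε g1 g2 g3
  have e1 : Real.log (1 / ε) = -Real.log ε := by rw [one_div, Real.log_inv]
  rw [e1] at g2
  push_cast at g2
  have e2 : E ε φ - r * lam ε = -(Real.log ‖LFun B ((n : ℂ) / 2 + 1 + ε)‖ - E ε φ) +
      (Real.log ‖LFun B ((n : ℂ) / 2 + 1 + ε)‖ + -(r : ℝ) * -Real.log ε) -
      r * (lam ε + Real.log ε) := by ring
  rw [e2]
  refine (abs_sub _ _).trans (add_le_add ((abs_add_le _ _).trans (add_le_add ?_ g2)) ?_)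
  · rw [abs_neg]
    exact g1.2
  · rw [abs_mul]
    exact mul_le_mul_of_nonneg_left g3 (abs_nonneg _)

theorem lam_log : Tendsto (fun ε : ℝ => lam ε / Real.log (1 / ε)) (𝓝[>] 0) (𝓝 1) := by
  obtain ⟨C, hC⟩ := lam_bounded
  have h1 : Tendsto (fun ε : ℝ => C / Real.log (1 / ε)) (𝓝[>] 0) (𝓝 0) :=
    log_inv_tendsto.const_div_atTop C
  rw [tendsto_iff_dist_tendsto_zero]
  refine squeeze_zero' (Filter.Eventually.of_forall fun _ => dist_nonneg) ?_ h1
  filter_upwards [hC, log_inv_tendsto.eventually_gt_atTop 0] with ε g1 g2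
  rw [Real.dist_eq]
  have e1 : Real.log (1 / ε) = -Real.log ε := by rw [one_div, Real.log_inv]
  have e2 : lam ε / Real.log (1 / ε) - 1 = (lam ε + Real.log ε) / Real.log (1 / ε) := by
    rw [div_sub_one g2.ne', e1]
    congr 1
    ring
  rw [e2, abs_div, abs_of_pos g2]
  exact div_le_div_of_nonneg_right g1 g2.le

/-- the size is the mean of the traces -/
theorem size_sub {n : ℕ} {B : Nat.Primes → ℂ[X]} {φ : Nat.Primes → ℝ} {C0 : ℝ}
    (hφ : ∀ p, |φ p| ≤ C0)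
    (h : ∃ C : ℝ, ∀ᶠ ε : ℝ in 𝓝[>] 0, LFun B ((n : ℂ) / 2 + 1 + ε) ≠ 0 ∧
      |Real.log ‖LFun B ((n : ℂ) / 2 + 1 + ε)‖ - E ε φ| ≤ C) :
    Tendsto (fun ε : ℝ => size n B ε - E ε φ / lam ε) (𝓝[>] 0) (𝓝 0) := by
  obtain ⟨C, hC⟩ := h
  have h1 : Tendsto (fun ε : ℝ => C / Real.log (1 / ε) + C0 * |lam ε / Real.log (1 / ε) - 1|)
      (𝓝[>] 0) (𝓝 0) := by
    have h2 := (log_inv_tendsto.const_div_atTop C).add
      (((lam_log.sub_const 1).abs).const_mul C0)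
    rw [sub_self, abs_zero, mul_zero, add_zero] at h2
    exact h2
  rw [tendsto_zero_iff_abs_tendsto_zero]
  refine squeeze_zero' (Filter.Eventually.of_forall fun _ => abs_nonneg _) ?_ h1
  filter_upwards [hC, log_inv_tendsto.eventually_gt_atTop 0, lam_pos, self_mem_nhdsWithin]
    with ε g1 g2 g3 g4
  have hε : (0 : ℝ) < ε := g4
  have e1 : size n B ε - E ε φ / lam ε =
      (Real.log ‖LFun B ((n : ℂ) / 2 + 1 + ε)‖ - E ε φ) / Real.log (1 / ε) +
      (E ε φ / lam ε) * (lam ε / Real.log (1 / ε) - 1) := by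
    unfold size
    field_simp
    ring
  simp only [Function.comp_apply]
  rw [e1]
  refine (abs_add_le _ _).trans (add_le_add ?_ ?_)
  · rw [abs_div, abs_of_pos g2]
    exact div_le_div_of_nonneg_right g1.2 g2.le
  · rw [abs_mul]
    refine mul_le_mul_of_nonneg_right ?_ (abs_nonneg _)
    rw [abs_div, abs_of_pos g3, div_le_iff₀ g3]
    exact abs_E_le hε hφ

/-- the order is the limit of the size -/
theorem size_order {n : ℕ} {B : Nat.Primes → ℂ[X]} {r : ℤ} (hr : HasOrder n B (-r)) :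
    Tendsto (fun ε : ℝ => size n B ε) (𝓝[>] 0) (𝓝 r) := by
  obtain ⟨C, hC⟩ := order_log hr
  have h1 : Tendsto (fun ε : ℝ => C / Real.log (1 / ε)) (𝓝[>] 0) (𝓝 0) :=
    log_inv_tendsto.const_div_atTop C
  rw [tendsto_iff_dist_tendsto_zero]
  refine squeeze_zero' (Filter.Eventually.of_forall fun _ => dist_nonneg) ?_ h1
  filter_upwards [hC, log_inv_tendsto.eventually_gt_atTop 0] with ε g1 g2
  rw [Real.dist_eq]
  have e1 : size n B ε - r = (Real.log ‖LFun B ((n : ℂ) / 2 + 1 + ε)‖ +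
      ((-r : ℤ) : ℝ) * Real.log (1 / ε)) / Real.log (1 / ε) := by
    unfold size
    rw [add_div, mul_div_assoc, div_self g2.ne']
    push_cast
    ring
  rw [e1, abs_div, abs_of_pos g2]
  exact div_le_div_of_nonneg_right g1 g2.le

end Pool.Agent.Y149.PK
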