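import Pool.Agent.Y149.PK.Core
import Pool.Agent.Y149.PK.Defs

/-! The mean square over all tuples. -/

set_option autoImplicit false

namespace Pool.Agent.Y149.PK

open Finset Filter Topology
open Pool.Agent.H341R2 (E lam lam_tendsto)

/-! ### The euclidean norm of a function on a finite set -/

section
variable {α : Type*}

/-- the euclidean norm -/
noncomputable def nrm (S : Finset α) (f : α → ℝ) : ℝ := Real.sqrt (∑ x ∈ S, f x ^ 2)

theorem nrm_nonneg (S : Finset α) (f : α → ℝ) : 0 ≤ nrm S f := Real.sqrt_nonneg _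

theorem nrm_sq (S : Finset α) (f : α → ℝ) : nrm S f ^ 2 = ∑ x ∈ S, f x ^ 2 :=
  Real.sq_sqrt (Finset.sum_nonneg fun _ _ => sq_nonneg _)

theorem nrm_le {S : Finset α} {f : α → ℝ} {b : ℝ} (hb : 0 ≤ b) (h : ∑ x ∈ S, f x ^ 2 ≤ b ^ 2) :
    nrm S f ≤ b := Real.sqrt_le_iff.2 ⟨hb, h⟩

theorem nrm_add (S : Finset α) (f g : α → ℝ) : nrm S (fun x => f x + g x) ≤ nrm S f + nrm S g := by
  refine nrm_le (add_nonneg (nrm_nonneg _ _) (nrm_nonneg _ _)) ?_
  have h1 := Finset.sum_mul_sq_le_sq_mul_sq S f g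
  have h2 : ∑ x ∈ S, f x * g x ≤ nrm S f * nrm S g := by
    refine le_of_sq_le_sq_ofNonneg ?_ (mul_nonneg (nrm_nonneg _ _) (nrm_nonneg _ _))
    rw [mul_pow, nrm_sq, nrm_sq]
    exact h1
  have h3 : ∑ x ∈ S, (f x + g x) ^ 2 = ∑ x ∈ S, f x ^ 2 + 2 * ∑ x ∈ S, f x * g x +
      ∑ x ∈ S, g x ^ 2 := by
    rw [Finset.mul_sum, ← Finset.sum_add_distrib, ← Finset.sum_add_distrib]
    exact Finset.sum_congr rfl fun x _ => by ring
  rw [h3, add_sq, nrm_sq, nrm_sq]
  nlinarith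
where
  le_of_sq_le_sq_ofNonneg {a b : ℝ} (h : a ^ 2 ≤ b ^ 2) (hb : 0 ≤ b) : a ≤ b :=
    (le_abs_self a).trans (abs_le_of_sq_le_sq h hb)

theorem nrm_sum {κ : Type*} (I : Finset κ) (S : Finset α) (f : κ → α → ℝ) :
    nrm S (fun x => ∑ i ∈ I, f i x) ≤ ∑ i ∈ I, nrm S (f i) := by
  classical
  induction I using Finset.induction_on with
  | empty => simp [nrm]
  | insert a I ha ih =>
    simp only [Finset.sum_insert ha]
    exact (nrm_add S _ _).trans (add_le_add_right ih _)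

theorem nrm_mul_le {S : Finset α} {f g : α → ℝ} {c : ℝ} (hc : 0 ≤ c) (h : ∀ x ∈ S, |g x| ≤ c) :
    nrm S (fun x => f x * g x) ≤ c * nrm S f := by
  refine nrm_le (mul_nonneg hc (nrm_nonneg _ _)) ?_
  rw [mul_pow, nrm_sq, Finset.mul_sum]
  refine Finset.sum_le_sum fun x hx => ?_
  rw [mul_pow, mul_comm]
  refine mul_le_mul_of_nonneg_right ?_ (sq_nonneg _)
  rw [← sq_abs]
  exact pow_le_pow_left₀ (abs_nonneg _) (h x hx) 2

theorem nrm_congr {S : Finset α} {f g : α → ℝ} (h : ∀ x ∈ S, f x = g x) : nrm S f = nrm S g := by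
  unfold nrm
  rw [Finset.sum_congr rfl fun x hx => by rw [h x hx]]

end

section
variable {ι : Type}


theorem card_tup (J : Finset ι) (k : ℕ) : (tuples J k).card = J.card ^ k := by
  unfold tuples
  rw [Fintype.card_piFinset]
  simp

theorem sum_tup_succ (J : Finset ι) (k : ℕ) (F : (Fin (k + 1) → ι) → ℝ) :
    ∑ l ∈ tuples J (k + 1), F l = ∑ x ∈ J ×ˢ tuples J k, F (Fin.cons x.1 x.2) := by
  symm
  refine Finset.sum_nbij' (fun x => Fin.cons x.1 x.2) (fun l => (l 0, Fin.tail l)) ?_ ?_ ?_ ?_ ?_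
  · intro x hx
    rw [Finset.mem_product] at hx
    unfold tuples at *
    rw [Fintype.mem_piFinset] at *
    intro i
    refine Fin.cases ?_ (fun j => ?_) i
    · exact hx.1
    · exact hx.2 j
  · intro l hl
    unfold tuples at *
    rw [Fintype.mem_piFinset] at hl
    rw [Finset.mem_product, Fintype.mem_piFinset]
    exact ⟨hl 0, fun i => hl i.succ⟩
  · intro x _
    simp
  · intro l _
    simp
  · intro x _
    rfl

/-- the normalised traces of the products -/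
noncomputable def PP (Z : ℕ → Nat.Primes → ℝ) (T : ι → ℕ → Nat.Primes → ℝ) :
    List ι → ℕ → Nat.Primes → ℝ
  | [], n => Z n
  | e :: l, n => fun p => ∑ x ∈ antidiagonal n, PP Z T l x.1 p * T e x.2 p

/-- the bounds for the traces -/
def bnd (N0 N : ℕ → ℝ) : ℕ → ℕ → ℝ
  | 0, n => N0 n
  | k + 1, n => ∑ x ∈ antidiagonal n, bnd N0 N k x.1 * N x.2

/-- the constants -/
def KK (N0 N t v : ℕ → ℝ) (s : ℝ) : ℕ → ℕ → ℝ
  | 0, _ => 0
  | k + 1, n => ∑ x ∈ antidiagonal n, (KK N0 N t v s k x.1 * t x.2 + s * (bnd N0 N k x.1 * v x.2))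

variable {R : ι → ι → Prop} {M : ℕ} {T : ι → ℕ → Nat.Primes → ℝ} {τ : ι → ℕ → ℝ} {N t v : ℕ → ℝ}
  {Z : ℕ → Nat.Primes → ℝ} {N0 : ℕ → ℝ}

theorem PP_le (hT : ∀ e c p, |T e c p| ≤ N c) (hZ : ∀ n p, |Z n p| ≤ N0 n) (l : List ι) (n : ℕ)
    (p : Nat.Primes) : |PP Z T l n p| ≤ bnd N0 N l.length n := by
  induction l generalizing n with
  | nil => exact hZ n p
  | cons e l ih =>
    rw [PP, List.length_cons, bnd]
    refine (Finset.abs_sum_le_sum_abs _ _).trans (Finset.sum_le_sum fun x _ => ?_)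
    rw [abs_mul]
    exact mul_le_mul (ih x.1) (hT e x.2 p) (abs_nonneg _) ((abs_nonneg _).trans (ih x.1))

/-- the difference -/
noncomputable def dd (Z : ℕ → Nat.Primes → ℝ) (T : ι → ℕ → Nat.Primes → ℝ) (τ : ι → ℕ → ℝ)
    (ε : ℝ) (l : List ι) (n : ℕ) : ℝ :=
  E ε (PP Z T l n) / lam ε - QQ (fun n => E ε (Z n) / lam ε) τ l n

theorem dd_cons (h : Fam R M T τ N t v) (hZ : ∀ n p, |Z n p| ≤ N0 n) {ε : ℝ} (hε : 0 < ε) (e : ι)
    (l : List ι) (n : ℕ) : dd Z T τ ε (e :: l) n = ∑ x ∈ antidiagonal n,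
      (dd Z T τ ε l x.1 * τ e x.2 + E ε (fun p => PP Z T l x.1 p * uf T τ e x.2 p) / lam ε) := by
  unfold dd
  rw [QQ]
  have h1 : E ε (PP Z T (e :: l) n) = ∑ x ∈ antidiagonal n,
      (E ε (PP Z T l x.1) * τ e x.2 + E ε (fun p => PP Z T l x.1 p * uf T τ e x.2 p)) := by
    have h2 : E ε (PP Z T (e :: l) n) = ∑ x ∈ antidiagonal n,
        E ε (fun p => PP Z T l x.1 p * T e x.2 p) := by
      refine E_fsum hε _ (fun (x : ℕ × ℕ) p => PP Z T l x.1 p * T e x.2 p)
        (fun (x : ℕ × ℕ) => bnd N0 N l.length x.1 * N x.2) fun x _ p => ?_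
      rw [abs_mul]
      exact mul_le_mul (PP_le h.bd hZ l x.1 p) (h.bd e x.2 p) (abs_nonneg _)
        ((abs_nonneg _).trans (PP_le h.bd hZ l x.1 p))
    rw [h2]
    refine Finset.sum_congr rfl fun x _ => ?_
    have h3 : (fun p => PP Z T l x.1 p * T e x.2 p) =
        fun p => τ e x.2 * PP Z T l x.1 p + PP Z T l x.1 p * uf T τ e x.2 p := by
      funext p
      unfold uf
      ring
    rw [h3, E_add' hε (B := |τ e x.2| * bnd N0 N l.length x.1)
      (B' := bnd N0 N l.length x.1 * (N x.2 + t x.2)), E_smul, mul_comm]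
    · intro p
      rw [abs_mul]
      exact mul_le_mul_of_nonneg_left (PP_le h.bd hZ l x.1 p) (abs_nonneg _)
    · intro p
      rw [abs_mul]
      exact mul_le_mul (PP_le h.bd hZ l x.1 p) (h.ub e x.2 p) (abs_nonneg _)
        ((abs_nonneg _).trans (PP_le h.bd hZ l x.1 p))
  rw [h1, Finset.sum_div, ← Finset.sum_sub_distrib]
  refine Finset.sum_congr rfl fun x _ => ?_
  ring

/-- **The mean square over the tuples.** -/
theorem Fam.mean (h : Fam R M T τ N t v) (hZ : ∀ n p, |Z n p| ≤ N0 n) (J : Finset ι) (k : ℕ) :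
    ∀ (n : ℕ) (δ : ℝ), 0 < δ → ∀ᶠ ε : ℝ in 𝓝[>] 0,
      Real.sqrt J.card * nrm (tuples J k) (fun l => dd Z T τ ε (List.ofFn l) n) ≤
        KK N0 N t v (Real.sqrt (2 * M)) k n * Real.sqrt J.card ^ k + δ := by
  classical
  set s : ℝ := Real.sqrt (2 * M) with hs
  have hs0 : 0 ≤ s := Real.sqrt_nonneg _
  have hs2 : s ^ 2 = 2 * M := Real.sq_sqrt (by positivity)
  set q : ℝ := Real.sqrt J.card with hq
  have hq0 : 0 ≤ q := Real.sqrt_nonneg _
  have hq2 : q ^ 2 = J.card := Real.sq_sqrt (by positivity)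
  induction k with
  | zero =>
    intro n δ hδ
    refine Filter.Eventually.of_forall fun ε => ?_
    have h1 : nrm (tuples J 0) (fun l => dd Z T τ ε (List.ofFn l) n) = 0 := by
      have h2 : nrm (tuples J 0) (fun l => dd Z T τ ε (List.ofFn l) n) =
          nrm (tuples J 0) (fun _ => (0 : ℝ)) := nrm_congr fun l _ => by
        simp [dd, PP, QQ]
      rw [h2]
      simp [nrm]
    rw [h1, mul_zero, KK, zero_mul, zero_add]
    exact hδ.le
  | succ k ih =>
    intro n δ hδ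
    rcases isEmpty_or_nonempty ι with hι | hι
    · refine Filter.Eventually.of_forall fun ε => ?_
      have hJ : J = ∅ := Finset.eq_empty_of_isEmpty J
      have hq' : q = 0 := by rw [hq, hJ]; simp
      rw [hq', zero_mul, zero_pow (by omega), mul_zero, zero_add]
      exact hδ.le
    have ht0 : ∀ c, 0 ≤ t c := fun c => (abs_nonneg _).trans (h.tb (Classical.arbitrary ι) c)
    have hbd0 : ∀ (l : Fin k → ι) (m : ℕ), 0 ≤ bnd N0 N k m := by
      intro l m
      have h1 := (abs_nonneg _).trans (PP_le h.bd hZ (List.ofFn l) m ⟨2, Nat.prime_two⟩)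
      rwa [List.length_ofFn] at h1
    have hbd0' : ∀ m : ℕ, 0 ≤ bnd N0 N k m := fun m => hbd0 (fun _ => Classical.arbitrary ι) m
    set G : ℝ := ∑ x ∈ antidiagonal n, (t x.2 * q + q ^ (k + 1)) with hG
    have hG0 : 0 ≤ G := Finset.sum_nonneg fun x _ =>
      add_nonneg (mul_nonneg (ht0 _) hq0) (pow_nonneg hq0 _)
    set δ' : ℝ := δ / (G + 1) with hδ'
    have hδ'0 : 0 < δ' := by positivity
    have ev1 : ∀ᶠ ε : ℝ in 𝓝[>] 0, ∀ x ∈ antidiagonal n,
        q * nrm (tuples J k) (fun l => dd Z T τ ε (List.ofFn l) x.1) ≤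
          KK N0 N t v s k x.1 * q ^ k + δ' := by
      rw [Filter.eventually_all_finset]
      exact fun x _ => ih x.1 δ' hδ'0
    have ev2 : ∀ᶠ ε : ℝ in 𝓝[>] 0, ∀ x ∈ antidiagonal n, ∀ l ∈ tuples J k,
        ∑ e ∈ J, (E ε (fun p => PP Z T (List.ofFn l) x.1 p * uf T τ e x.2 p) / lam ε) ^ 2 ≤
          2 * M * v x.2 ^ 2 * bnd N0 N k x.1 ^ 2 + δ' ^ 2 := by
      rw [Filter.eventually_all_finset]
      intro x _
      rw [Filter.eventually_all_finset]
      intro l _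
      refine h.bes x.2 J (PP Z T (List.ofFn l) x.1) (fun p => ?_) (by positivity)
      have := PP_le h.bd hZ (List.ofFn l) x.1 p
      rwa [List.length_ofFn] at this
    filter_upwards [ev1, ev2, self_mem_nhdsWithin] with ε h1 h2 h3
    have hε : (0 : ℝ) < ε := h3
    set S' := J ×ˢ tuples J k with hS'
    have e1 : nrm (tuples J (k + 1)) (fun l => dd Z T τ ε (List.ofFn l) n) =
        nrm S' (fun y => ∑ x ∈ antidiagonal n, (dd Z T τ ε (List.ofFn y.2) x.1 * τ y.1 x.2 +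
          E ε (fun p => PP Z T (List.ofFn y.2) x.1 p * uf T τ y.1 x.2 p) / lam ε)) := by
      unfold nrm
      rw [sum_tup_succ]
      congr 1
      refine Finset.sum_congr rfl fun y _ => ?_
      have e0 : List.ofFn (Fin.cons y.1 y.2 : Fin (k + 1) → ι) = y.1 :: List.ofFn y.2 := by
        rw [List.ofFn_succ]
        simp only [Fin.cons_zero, Fin.cons_succ]
      simp only [e0]
      rw [dd_cons h hZ hε]
    have e2 : nrm S' (fun y => ∑ x ∈ antidiagonal n, (dd Z T τ ε (List.ofFn y.2) x.1 * τ y.1 x.2 +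
          E ε (fun p => PP Z T (List.ofFn y.2) x.1 p * uf T τ y.1 x.2 p) / lam ε)) ≤
        ∑ x ∈ antidiagonal n, (t x.2 * (q * nrm (tuples J k)
          (fun l => dd Z T τ ε (List.ofFn l) x.1)) + q ^ k * (s * (bnd N0 N k x.1 * v x.2) + δ')) := by
      refine (nrm_sum _ S' _).trans (Finset.sum_le_sum fun x hx => ?_)
      refine (nrm_add S' _ _).trans (add_le_add ?_ ?_)
      · refine (nrm_mul_le (ht0 x.2) fun y _ => h.tb y.1 x.2).trans ?_
        refine mul_le_mul_of_nonneg_left (le_of_eq ?_) (ht0 x.2)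
        unfold nrm
        rw [hS', Finset.sum_product]
        dsimp only
        rw [Finset.sum_const, nsmul_eq_mul, Real.sqrt_mul (by positivity)]
      · refine nrm_le (mul_nonneg (pow_nonneg hq0 _) (add_nonneg (mul_nonneg hs0
          (mul_nonneg (hbd0' _) (h.v0 _))) hδ'0.le)) ?_
        rw [hS', Finset.sum_product_right]
        refine (Finset.sum_le_card_nsmul _ _ (2 * M * v x.2 ^ 2 * bnd N0 N k x.1 ^ 2 + δ' ^ 2)
          fun l hl => h2 x hx l hl).trans ?_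
        rw [nsmul_eq_mul, card_tup, mul_pow, ← pow_mul, mul_comm k 2, pow_mul, hq2]
        push_cast
        refine mul_le_mul_of_nonneg_left ?_ (by positivity)
        have h5 : 0 ≤ s * (bnd N0 N k x.1 * v x.2) * δ' :=
          mul_nonneg (mul_nonneg hs0 (mul_nonneg (hbd0' _) (h.v0 _))) hδ'0.le
        rw [← hs2]
        nlinarith
    have e3 : q * ∑ x ∈ antidiagonal n, (t x.2 * (q * nrm (tuples J k)
          (fun l => dd Z T τ ε (List.ofFn l) x.1)) + q ^ k * (s * (bnd N0 N k x.1 * v x.2) + δ')) ≤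
        ∑ x ∈ antidiagonal n, ((KK N0 N t v s k x.1 * t x.2 + s * (bnd N0 N k x.1 * v x.2)) *
          q ^ (k + 1) + δ' * (t x.2 * q + q ^ (k + 1))) := by
      rw [Finset.mul_sum]
      refine Finset.sum_le_sum fun x hx => ?_
      have h5 := mul_le_mul_of_nonneg_left (h1 x hx) (mul_nonneg hq0 (ht0 x.2))
      have h6 : q * (t x.2 * (q * nrm (tuples J k) (fun l => dd Z T τ ε (List.ofFn l) x.1)) +
          q ^ k * (s * (bnd N0 N k x.1 * v x.2) + δ')) =
          q * t x.2 * (q * nrm (tuples J k) (fun l => dd Z T τ ε (List.ofFn l) x.1)) +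
          q ^ (k + 1) * (s * (bnd N0 N k x.1 * v x.2) + δ') := by ring
      rw [h6]
      refine (add_le_add_left h5 _).trans (le_of_eq ?_)
      ring
    have e4 : ∑ x ∈ antidiagonal n, ((KK N0 N t v s k x.1 * t x.2 +
          s * (bnd N0 N k x.1 * v x.2)) * q ^ (k + 1) + δ' * (t x.2 * q + q ^ (k + 1))) =
        KK N0 N t v s (k + 1) n * q ^ (k + 1) + δ' * G := by
      rw [Finset.sum_add_distrib, ← Finset.sum_mul, ← Finset.mul_sum, KK]
    have e5 : δ' * G ≤ δ := by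
      rw [hδ', div_mul_eq_mul_div, div_le_iff₀ (by positivity)]
      nlinarith
    calc q * nrm (tuples J (k + 1)) (fun l => dd Z T τ ε (List.ofFn l) n) ≤ _ :=
          mul_le_mul_of_nonneg_left (e1.le.trans e2) hq0
      _ ≤ _ := e3
      _ = _ := e4
      _ ≤ _ := add_le_add_right e5 _

theorem KK_nonneg (h : Fam R M T τ N t v) (hZ : ∀ n p, |Z n p| ≤ N0 n) [Nonempty ι] {s : ℝ}
    (hs : 0 ≤ s) (k n : ℕ) : 0 ≤ KK N0 N t v s k n := by
  have ht0 : ∀ c, 0 ≤ t c := fun c => (abs_nonneg _).trans (h.tb (Classical.arbitrary ι) c)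
  induction k generalizing n with
  | zero => exact le_rfl
  | succ k ih =>
    have hbd0 : ∀ m : ℕ, 0 ≤ bnd N0 N k m := by
      intro m
      have h1 := (abs_nonneg _).trans (PP_le h.bd hZ
        (List.ofFn fun _ : Fin k => Classical.arbitrary ι) m ⟨2, Nat.prime_two⟩)
      rwa [List.length_ofFn] at h1
    rw [KK]
    exact Finset.sum_nonneg fun x _ => add_nonneg (mul_nonneg (ih _) (ht0 _))
      (mul_nonneg hs (mul_nonneg (hbd0 _) (h.v0 _)))

/-- the mean square, second form -/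
theorem Fam.mean_sq (h : Fam R M T τ N t v) (hZ : ∀ n p, |Z n p| ≤ N0 n) (J : Finset ι) (k n : ℕ)
    {η : ℝ} (hη : 0 < η) : ∀ᶠ ε : ℝ in 𝓝[>] 0,
      ∑ l ∈ tuples J k, dd Z T τ ε (List.ofFn l) n ^ 2 ≤
        KK N0 N t v (Real.sqrt (2 * M)) k n ^ 2 * (J.card : ℝ) ^ (k - 1) + η := by
  classical
  rcases Nat.eq_zero_or_pos k with hk | hk
  · subst hk
    refine Filter.Eventually.of_forall fun ε => ?_
    have h1 : ∑ l ∈ tuples J 0, dd Z T τ ε (List.ofFn l) n ^ 2 = 0 :=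
      Finset.sum_eq_zero fun l _ => by simp [dd, PP, QQ]
    rw [h1, KK]
    simp [hη.le]
  obtain ⟨j, rfl⟩ : ∃ j, k = j + 1 := ⟨k - 1, by omega⟩
  rcases J.eq_empty_or_nonempty with hJ | hJ
  · refine Filter.Eventually.of_forall fun ε => ?_
    have h1 : tuples J (j + 1) = ∅ := by
      rw [← Finset.card_eq_zero, card_tup, hJ]
      simp
    rw [h1, Finset.sum_empty]
    positivity
  have hι : Nonempty ι := ⟨hJ.choose⟩
  set q : ℝ := Real.sqrt J.card with hq
  have hc : (1 : ℝ) ≤ J.card := by exact_mod_cast hJ.card_pos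
  have hq0 : 0 ≤ q := Real.sqrt_nonneg _
  have hq2 : q ^ 2 = J.card := Real.sq_sqrt (by positivity)
  set κ := KK N0 N t v (Real.sqrt (2 * M)) (j + 1) n with hκ
  have hκ0 : 0 ≤ κ := KK_nonneg h hZ (Real.sqrt_nonneg _) _ _
  set δ : ℝ := min 1 (η / (2 * (κ * q ^ (j + 1)) + 1)) with hδ
  have hδ0 : 0 < δ := lt_min one_pos (by positivity)
  have hδ1 : δ ≤ 1 := min_le_left _ _
  have hδη : δ * (2 * (κ * q ^ (j + 1)) + 1) ≤ η := by
    have h1 : δ ≤ η / (2 * (κ * q ^ (j + 1)) + 1) := min_le_right _ _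
    rwa [le_div_iff₀ (by positivity)] at h1
  filter_upwards [h.mean hZ J (j + 1) n δ hδ0] with ε h1
  set A := nrm (tuples J (j + 1)) (fun l => dd Z T τ ε (List.ofFn l) n) with hA
  have hA0 : 0 ≤ A := nrm_nonneg _ _
  have hA2 : A ^ 2 = ∑ l ∈ tuples J (j + 1), dd Z T τ ε (List.ofFn l) n ^ 2 := nrm_sq _ _
  have h2 : (q * A) ^ 2 ≤ (κ * q ^ (j + 1) + δ) ^ 2 :=
    pow_le_pow_left₀ (mul_nonneg hq0 hA0) h1 2
  have h3 : (κ * q ^ (j + 1) + δ) ^ 2 ≤ κ ^ 2 * (J.card : ℝ) ^ (j + 1) + η := by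
    have h4 : (κ * q ^ (j + 1)) ^ 2 = κ ^ 2 * (J.card : ℝ) ^ (j + 1) := by
      rw [mul_pow, ← pow_mul, mul_comm (j + 1) 2, pow_mul, hq2]
    rw [add_sq, h4]
    nlinarith
  rw [mul_pow, hq2, hA2] at h2
  have h5 := h2.trans h3
  rw [Nat.add_sub_cancel]
  have h6 : (J.card : ℝ) * (∑ l ∈ tuples J (j + 1), dd Z T τ ε (List.ofFn l) n ^ 2) ≤
      (J.card : ℝ) * (κ ^ 2 * (J.card : ℝ) ^ j + η) := by
    refine h5.trans ?_
    have h7 : (J.card : ℝ) * (κ ^ 2 * (J.card : ℝ) ^ j + η) =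
        κ ^ 2 * (J.card : ℝ) ^ (j + 1) + J.card * η := by ring
    rw [h7]
    nlinarith
  exact le_of_mul_le_mul_left h6 (by linarith)

end

end Pool.Agent.Y149.PK
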